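import Pool.Agent.Q111.OD.OD12
import Pool.Agent.Q111.OD.OD3
import Pool.Agent.Q128.OD.H5
import Pool.Agent.Q225.OD.Od6
import Pool.Agent.Q229.OD.S7
import Pool.Agent.Q154.OD.G8
import Pool.Agent.Q38.OD.OD9
import Pool.Agent.Q111.OD.OD10

/-! Project OD, part 1: the proofs of the statements of `Stm1`. -/

set_option autoImplicit false

namespace Pool.Agent.Q40.OD

theorem od8 : S_OD8 :=
  Pool.Agent.Q154.OD.s_od8 Pool.Agent.Q111.OD.t_OD2
    (Pool.Agent.Q111.OD.s_od3 Pool.Agent.Q111.OD.t_OD2)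
    (Pool.Agent.Q128.OD.od5 Pool.Agent.Q128.OD.od4) (Pool.Agent.Q225.OD.s_od6 Pool.Agent.Q128.OD.od4)
    Pool.Agent.Q229.OD.S7.od7

theorem od10 : S_OD10 := Pool.Agent.Q111.OD.s_od10 od8 Pool.Agent.Q38.OD.od9

theorem od11 : S_OD11 := Pool.Agent.Q38.OD.od11

end Pool.Agent.Q40.OD
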