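import Pool.Agent.Q261.OD.EK3
import Pool.Agent.Q261.OD.EK124
import Pool.Agent.Q56.OD.EK6
import Pool.Agent.Q56.OD.EK5
import Pool.Agent.Q38.OD.EK6P
import Pool.Agent.Q38.OD.EK7
import Pool.Agent.Q272.OD.EK9

/-! Project OD, part 2: the proofs of the statements of `Stm2`. -/

set_option autoImplicit false

namespace Pool.Agent.Q40.OD

theorem ek1 : S_EK1 := Pool.Agent.Q261.OD.s_ek1

theorem ek3 : S_EK3 := Pool.Agent.Q261.OD.ek3_all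

theorem ek6 : S_EK6 := Pool.Agent.Q56.OD.ek6 Pool.Agent.Q261.OD.s_ek4 Pool.Agent.Q56.OD.ek5

theorem ek6p : S_EK6P := Pool.Agent.Q38.OD.ek6p Pool.Agent.Q56.OD.ek5p

theorem ek9 : S_EK9 := Pool.Agent.Q272.OD.s_ek9 ek3 ek6 Pool.Agent.Q38.OD.ek7
  Pool.Agent.Q272.OD.s_ek8

theorem ek10 : S_EK10 := Pool.Agent.Q272.OD.s_ek10 ek1 ek3 ek6 ek6p

end Pool.Agent.Q40.OD
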