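import Pool.Agent.Q40.OD.Defs2
import Pool.Agent.TH214.RM.Smooth

/-! Project OD: base change from the integers. -/

set_option autoImplicit false
set_option linter.unusedSectionVars false
set_option linter.unusedVariables false

namespace Pool.Agent.Q40.OD

open Pool.Agent.TH214.RM MvPolynomial

theorem smooth_map {K L ι : Type} [Field K] [Field L] (φ : K →+* L) (G : MvPolynomial ι K)
    (h : Smooth G) : Smooth (map φ G) := by
  intro i
  obtain ⟨k, hk⟩ := h i
  refine ⟨k, ?_⟩
  have h1 := Ideal.mem_map_of_mem (map φ) hk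
  rw [Ideal.map_span, map_pow, map_X, ← Set.range_comp] at h1
  have h2 : (⇑(map φ) ∘ fun j => pderiv j G) = fun j => pderiv j (map φ G) := by
    funext j
    rw [pderiv_map]
    rfl
  rwa [h2] at h1

theorem nondeg_map {O O' : Type} [CommRing O] [CommRing O'] (φ : O →+* O') {n : ℕ}
    (G : MvPolynomial (Fin (n + 2)) O) (𝔭 : Ideal O') (h : Nondeg (𝔭.comap φ) G) :
    Nondeg 𝔭 (map φ G) := by
  intro s Q hQ hC hG hD hdet
  have hp : (Q.comap (map φ : MvPolynomial {j : Fin (n + 2) // j ≠ s} O →+* _)).IsPrime :=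
    Ideal.comap_isPrime _ _
  refine h s (Q.comap (map φ)) hp ?_ ?_ ?_ ?_
  · intro r
    rw [Ideal.mem_comap, map_C, hC, Ideal.mem_comap]
  · rw [Ideal.mem_comap, map_deh]
    exact hG
  · intro j
    rw [Ideal.mem_comap, ← pderiv_map, map_deh]
    exact hD j
  · rw [Ideal.mem_comap, RingHom.map_det]
    convert hdet using 2
    ext1 a b
    change map φ (pderiv a (pderiv b (deh s G))) = pderiv a (pderiv b (deh s (map φ G)))
    rw [← pderiv_map, ← pderiv_map, map_deh]

theorem crit_char_zero {O : Type} [CommRing O] {n : ℕ} (f : MvPolynomial (Fin (n + 2)) ℤ) (d : ℕ)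
    (hf : f.IsHomogeneous d) (hsm : Smooth (map (Int.castRingHom ℚ) f)) (𝔭 : Ideal O)
    (h𝔭 : ∀ z : ℤ, z ≠ 0 → (z : O) ∉ 𝔭) : Crit 𝔭 (map (Int.castRingHom O) f) := by
  have hinj : Function.Injective (algebraMap ℤ ℚ) := IsFractionRing.injective ℤ ℚ
  refine crit_of_smooth 𝔭 _ d (hf.map _) fun i => ?_
  obtain ⟨k, hk⟩ := hsm i
  have hspan : Ideal.span (Set.range fun j => pderiv j (map (Int.castRingHom ℚ) f)) =
      Ideal.span (map (algebraMap ℤ ℚ) '' (Set.range fun j => pderiv j f)) := by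
    rw [← Set.range_comp]
    congr 2
    funext j
    exact pderiv_map
  rw [hspan] at hk
  obtain ⟨c, hc, y, hy, hyc⟩ := clear_span (R := ℚ) (nonZeroDivisors ℤ) _ _ hk
  refine ⟨(c : O), h𝔭 c (nonZeroDivisors.ne_zero hc), k, ?_⟩
  have h1 : y = C c * X i ^ k := by
    apply map_injective _ hinj
    rw [hyc, map_mul, map_C, map_pow, map_X]
  rw [h1] at hy
  have h2 := Ideal.mem_map_of_mem (map (Int.castRingHom O)) hy
  rw [Ideal.map_span, map_mul, map_C, map_pow, map_X, ← Set.range_comp] at h2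
  have h3 : (⇑(map (Int.castRingHom O)) ∘ fun j => pderiv j f) =
      fun j => pderiv j (map (Int.castRingHom O) f) := by
    funext j
    rw [pderiv_map]
    rfl
  rwa [h3] at h2

theorem locGood_of_nondeg {O E : Type} [CommRing O] [IsDomain O] [Field E] [Algebra O E]
    {n : ℕ} (N : ℕ) (hN : IsUnit (N : O)) (f : MvPolynomial (Fin (n + 2)) ℤ) (d : ℕ)
    (hf : f.IsHomogeneous d) (hsm : Smooth (map (Int.castRingHom ℚ) f))
    (h : ∀ p : ℕ, p.Prime → ¬ p ∣ N → Nondeg (Ideal.span {(p : ℤ)}) f) :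
    LocGood O (map (Int.castRingHom E) f) := by
  intro 𝔭 hp h0
  refine ⟨map (Int.castRingHom O) f, 1, 1, 1, one_ne_zero, one_mul 1, ?_, ?_⟩
  · have h1 : (fun i : Fin (n + 2) => ∑ j, C ((1 : Matrix (Fin (n + 2)) (Fin (n + 2)) E) i j) *
        (X j : MvPolynomial (Fin (n + 2)) E)) = X := by
      funext i
      rw [Finset.sum_eq_single i]
      · rw [Matrix.one_apply_eq, C_1, one_mul]
      · intro j _ hj
        rw [Matrix.one_apply_ne (Ne.symm hj), C_0, zero_mul]
      · intro h; exact absurd (Finset.mem_univ i) h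
    rw [h1, aeval_X_left_apply, C_1, one_mul, map_map]
    have h2 : (algebraMap O E).comp (Int.castRingHom O) = Int.castRingHom E := RingHom.ext_int _ _
    rw [h2]
  · have hp' : (𝔭.comap (Int.castRingHom O)).IsPrime := Ideal.comap_isPrime _ _
    obtain ⟨a, ha⟩ := (IsPrincipalIdealRing.principal (𝔭.comap (Int.castRingHom O))).principal
    have ha' : 𝔭.comap (Int.castRingHom O) = Ideal.span {a} := ha
    by_cases ha0 : a = 0
    · left
      refine crit_char_zero f d hf hsm 𝔭 fun z hz hz' => hz ?_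
      have h1 : z ∈ 𝔭.comap (Int.castRingHom O) := hz'
      rw [ha', ha0] at h1
      simpa using h1
    · right
      apply nondeg_map
      rw [ha'] at hp' ⊢
      have h1 : Prime a := (Ideal.span_singleton_prime ha0).1 hp'
      have h2 : Ideal.span {a} = Ideal.span {((a.natAbs : ℕ) : ℤ)} := by
        rw [Int.span_natAbs]
      rw [h2]
      have h3 : a.natAbs.Prime := Int.prime_iff_natAbs_prime.1 h1
      refine h _ h3 fun hdvd => ?_
      obtain ⟨c, hc⟩ := hdvd
      have h4 : a ∈ 𝔭.comap (Int.castRingHom O) := by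
        rw [ha']
        exact Ideal.mem_span_singleton_self a
      have h5 : ((a.natAbs : ℕ) : O) ∈ 𝔭 := by
        have h6 : ((a.natAbs : ℕ) : ℤ) ∈ 𝔭.comap (Int.castRingHom O) := by
          rw [ha', h2]
          exact Ideal.mem_span_singleton_self _
        rw [Ideal.mem_comap] at h6
        simpa only [eq_intCast, Int.cast_natCast] using h6
      apply hp.ne_top
      refine Ideal.eq_top_of_isUnit_mem 𝔭 ?_ hN
      rw [hc, Nat.cast_mul]
      exact 𝔭.mul_mem_right _ h5

end Pool.Agent.Q40.OD
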