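import Pool.Agent.Q40.OD.Defs2

/-! Project OD: counting forms by their coefficients. -/

set_option autoImplicit false
set_option linter.unusedSectionVars false
set_option linter.unusedVariables false

namespace Pool.Agent.Q40.OD

open MvPolynomial

theorem coeff_form {R : Type} [CommRing R] {n d : ℕ} (c : Ix n d → R) (α : Ix n d) :
    coeff α.1 (form n d c) = c α := by
  classical
  unfold form
  rw [coeff_sum, Finset.sum_eq_single α]
  · rw [coeff_monomial, if_pos rfl]
  · intro β _ hβ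
    rw [coeff_monomial, if_neg]
    exact fun h => hβ (Subtype.ext h)
  · intro h; exact absurd (Finset.mem_univ α) h

theorem form_homog {R : Type} [CommRing R] {n d : ℕ} (c : Ix n d → R) :
    (form n d c).IsHomogeneous d := by
  refine IsHomogeneous.sum _ _ _ fun α _ => ?_
  exact isHomogeneous_monomial _ α.2

theorem coeff_form' {R : Type} [CommRing R] {n d : ℕ} (c : Ix n d → R) (m : Fin (n + 2) →₀ ℕ)
    (hm : m.degree ≠ d) : coeff m (form n d c) = 0 :=
  (form_homog c).coeff_eq_zero hm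

theorem form_of_homog {R : Type} [CommRing R] {n d : ℕ} (f : MvPolynomial (Fin (n + 2)) R)
    (hf : f.IsHomogeneous d) : form n d (fun α => coeff α.1 f) = f := by
  ext m
  by_cases hm : m.degree = d
  · exact coeff_form (fun α : Ix n d => coeff α.1 f) ⟨m, hm⟩
  · rw [coeff_form' _ m hm, hf.coeff_eq_zero hm]

theorem card_forms {n d : ℕ} (H : ℕ) (P : MvPolynomial (Fin (n + 2)) ℤ → Prop) :
    Nat.card {f : MvPolynomial (Fin (n + 2)) ℤ // f.IsHomogeneous d ∧
      (∀ m, |coeff m f| ≤ H) ∧ P f} =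
    Nat.card {c : Ix n d → ℤ // (∀ α, |c α| ≤ H) ∧ P (form n d c)} := by
  refine Nat.card_congr ?_
  refine ⟨fun f => ⟨fun α => coeff α.1 f.1, fun α => f.2.2.1 _, ?_⟩,
    fun c => ⟨form n d c.1, form_homog _, ?_, c.2.2⟩, ?_, ?_⟩
  · rw [form_of_homog _ f.2.1]
    exact f.2.2.2
  · intro m
    by_cases hm : m.degree = d
    · rw [coeff_form c.1 ⟨m, hm⟩]
      exact c.2.1 _
    · rw [coeff_form' _ m hm, abs_zero]
      exact Int.natCast_nonneg H
  · rintro ⟨f, hf, h1, h2⟩
    exact Subtype.ext (form_of_homog f hf)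
  · rintro ⟨c, h1, h2⟩
    exact Subtype.ext (funext fun α => coeff_form c α)

theorem card_box {ι : Type} [Fintype ι] (H : ℕ) :
    Nat.card {c : ι → ℤ // ∀ α, |c α| ≤ H} = (2 * H + 1) ^ Fintype.card ι := by
  classical
  have e : {c : ι → ℤ // ∀ α, |c α| ≤ H} ≃ (ι → {t : ℤ // |t| ≤ H}) :=
    ⟨fun c α => ⟨c.1 α, c.2 α⟩, fun c => ⟨fun α => (c α).1, fun α => (c α).2⟩,
      fun c => rfl, fun c => rfl⟩
  rw [Nat.card_congr e, Nat.card_fun]
  have h1 : Nat.card {t : ℤ // |t| ≤ H} = 2 * H + 1 := by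
    have h2 : ∀ t : ℤ, |t| ≤ H ↔ t ∈ Finset.Icc (-(H : ℤ)) H := by
      intro t
      rw [Finset.mem_Icc, abs_le]
    have h3 : Nat.card {t : ℤ // |t| ≤ H} = Nat.card {t : ℤ // t ∈ Finset.Icc (-(H : ℤ)) H} :=
      Nat.card_congr (Equiv.subtypeEquivRight h2)
    rw [h3, Nat.card_eq_fintype_card, Fintype.card_coe, Int.card_Icc]
    omega
  rw [h1, Nat.card_eq_fintype_card]

theorem card_forms_all {n d : ℕ} (H : ℕ) :
    Nat.card {f : MvPolynomial (Fin (n + 2)) ℤ // f.IsHomogeneous d ∧ ∀ m, |coeff m f| ≤ H} =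
      (2 * H + 1) ^ Fintype.card (Ix n d) := by
  have h1 := card_forms (n := n) (d := d) H (fun _ => True)
  simp only [and_true] at h1
  rw [h1, card_box]

end Pool.Agent.Q40.OD
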