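import Pool.Agent.TH214.RM.Fin

/-! Project OD: hypersurfaces whose reductions have only nondegenerate singular points.
Definitions. -/

set_option autoImplicit false
set_option linter.unusedSectionVars false
set_option linter.unusedVariables false

open scoped Pointwise

namespace Pool.Agent.Q40.OD

open Pool.Agent.H918R2.Quad Pool.Agent.TH214.RM MvPolynomial

/-- The matrix of the second derivatives. -/
noncomputable def Hess {R σ : Type} [CommRing R] (E : MvPolynomial σ R) :
    Matrix σ σ (MvPolynomial σ R) :=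
  Matrix.of fun a b => pderiv a (pderiv b E)

/-- The singular points over `𝔭` of the hypersurface `G = 0` (the points of the fibre over `𝔭`
where all partial derivatives vanish) are nondegenerate: the Hessian is invertible. -/
def Nondeg {O ι : Type} [CommRing O] [Fintype ι] [DecidableEq ι] (𝔭 : Ideal O)
    (G : MvPolynomial ι O) : Prop :=
  ∀ (s : ι) (Q : Ideal (MvPolynomial {j : ι // j ≠ s} O)), Q.IsPrime →
    (∀ r : O, C r ∈ Q ↔ r ∈ 𝔭) → deh s G ∈ Q → (∀ j, pderiv j (deh s G) ∈ Q) →
      (Hess (deh s G)).det ∉ Q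

/-- The fibre over `𝔭` of the hypersurface `G = 0` has no singular points. -/
def SmAt {O ι : Type} [CommRing O] [DecidableEq ι] (𝔭 : Ideal O) (G : MvPolynomial ι O) : Prop :=
  ∀ (s : ι) (Q : Ideal (MvPolynomial {j : ι // j ≠ s} O)), Q.IsPrime →
    (∀ r : O, C r ∈ Q ↔ r ∈ 𝔭) → deh s G ∈ Q → ∃ j, pderiv j (deh s G) ∉ Q

section chart

variable {S τ : Type} [CommRing S] [Fintype τ] [DecidableEq τ]

/-- The coordinates `s_a` of the chart `i` of the blow-up, `s_i = 1`. In the polynomial ring
`MvPolynomial (Option τ) S` the variable `none` is `w`, the variable `some i` is `T` and the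
variable `some a`, `a ≠ i`, is `s_a`. -/
noncomputable def sv (S : Type) [CommRing S] {τ : Type} [DecidableEq τ] (i a : τ) :
    MvPolynomial (Option τ) S :=
  if a = i then 1 else X (some a)

/-- The quadratic form `∑ q_ab s_a s_b`. -/
noncomputable def qq (q : τ → τ → S) (i : τ) : MvPolynomial (Option τ) S :=
  ∑ a, ∑ b, C (q a b) * sv S i a * sv S i b

/-- The relations `π = w T`, `D_a = w ^ k T ^ (k+1) s_a` of the chart. -/
noncomputable def rels (π : S) (D : τ → S) (k : ℕ) (i : τ) : Set (MvPolynomial (Option τ) S) :=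
  insert (C π - X none * X (some i))
    (Set.range fun a => C (D a) - X none ^ k * X (some i) ^ (k + 1) * sv S i a)

/-- The equation of the strict transform of `u π ^ v + ∑ q_ab D_a D_b` (for `2 k ≤ v`). -/
noncomputable def EE (q : τ → τ → S) (u : S) (i : τ) (k v : ℕ) : MvPolynomial (Option τ) S :=
  if 2 * k + 2 ≤ v then qq q i + X none ^ (v - 2 * k) * X (some i) ^ (v - 2 * k - 2) * C u
  else if v = 2 * k + 1 then X none * C u + X (some i) * qq q i
  else C u + X (some i) ^ 2 * qq q i

end chart

/-- The set of the `∂_a G(x)` and of the `π ^ j m(x)`, `m` a monomial of degree `d - 1`. -/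
def Jset {R F ι : Type} [CommRing R] [Field F] [Algebra R F] (π : R) (G : MvPolynomial ι R)
    (d : ℕ) (x : ι → F) (j : ℕ) : Set F :=
  Set.range (fun a => aeval x (pderiv a G)) ∪
    (fun y => algebraMap R F π ^ j * y) '' (Set.range x ^ (d - 1))

/-- The products of a monomial of degree `D` in `x` and of elements of `J_1`, ..., `J_r`. -/
def Gens {R F ι : Type} [CommRing R] [Field F] [Algebra R F] (π : R) (G : MvPolynomial ι R)
    (d : ℕ) (x : ι → F) (r D : ℕ) : Set F :=
  {y | ∃ m ∈ Set.range x ^ D, ∃ g : Fin r → F, (∀ j : Fin r, g j ∈ Jset π G d x ((j : ℕ) + 1)) ∧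
    y = m * ∏ j, g j}

/-- Over each nonzero prime the hypersurface has, in suitable coordinates, a regular equation or
an equation with nondegenerate singular points. -/
def LocGood (O : Type) {K : Type} [CommRing O] [Field K] [Algebra O K] {n : ℕ}
    (G : MvPolynomial (Fin (n + 2)) K) : Prop :=
  ∀ 𝔭 : Ideal O, 𝔭.IsPrime → 𝔭 ≠ ⊥ →
    ∃ (H : MvPolynomial (Fin (n + 2)) O) (l : K) (T T' : Matrix (Fin (n + 2)) (Fin (n + 2)) K),
      l ≠ 0 ∧ T * T' = 1 ∧
      map (algebraMap O K) H = C l * aeval (fun i => ∑ j, C (T i j) * X j) G ∧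
        (Crit 𝔭 H ∨ Nondeg 𝔭 H)

end Pool.Agent.Q40.OD
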