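import Pool.Agent.Q40.OD.Defs

/-! Project OD: forms given by their coefficients. -/

set_option autoImplicit false

namespace Pool.Agent.Q40.OD

open MvPolynomial

/-- The exponents of the monomials of degree `d` in `n + 2` variables. -/
abbrev Ix (n d : ℕ) : Type := {α : Fin (n + 2) →₀ ℕ // α.degree = d}

instance (n d : ℕ) : Finite (Ix n d) := Finsupp.finite_of_degree_eq (σ := Fin (n + 2)) d

noncomputable instance (n d : ℕ) : Fintype (Ix n d) := Fintype.ofFinite _

/-- The form of degree `d` with the coefficients `c`. -/
noncomputable def form {R : Type} [CommRing R] (n d : ℕ) (c : Ix n d → R) :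
    MvPolynomial (Fin (n + 2)) R := ∑ α, monomial α.1 (c α)

/-- The polynomials in `S` have no common divisor over the rational numbers but constants. -/
def Cop {ι : Type} (S : Set (MvPolynomial ι ℤ)) : Prop :=
  ∀ P : MvPolynomial ι ℚ, (∀ G ∈ S, P ∣ map (Int.castRingHom ℚ) G) → IsUnit P

end Pool.Agent.Q40.OD
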