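import Pool.Agent.Q40.OD.Defs
import Pool.Agent.W418.Hyp2

/-! The function field of a projective hypersurface in the chart `X 0 = 1`. -/

set_option autoImplicit false
set_option linter.unusedSectionVars false
set_option linter.unusedVariables false

namespace Pool.Agent.Q40.OD

open Pool.Agent.TH214.RM Pool.Agent.H918R2.Quad Pool.Agent.W418 MvPolynomial

/-- Every polynomial is obtained from a form. -/
theorem exists_homog {K : Type} [Field K] {n : ℕ}
    (P : MvPolynomial {j : Fin (n + 2) // j ≠ 0} K) :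
    ∃ (e : ℕ) (Q : MvPolynomial (Fin (n + 2)) K), Q.IsHomogeneous e ∧ deh 0 Q = P := by
  classical
  set e := P.totalDegree with he
  refine ⟨e, ∑ m ∈ P.support, C (P.coeff m) *
    ((m.prod fun j k => X (j : Fin (n + 2)) ^ k) * X 0 ^ (e - m.degree)), ?_, ?_⟩
  · refine IsHomogeneous.sum _ _ _ fun m hm => ?_
    have hm1 : m.degree ≤ e := by
      rw [he]
      exact le_totalDegree hm
    have h1 : (m.prod fun j k => (X (j : Fin (n + 2)) : MvPolynomial (Fin (n + 2)) K) ^ k).IsHomogeneous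
        m.degree := by
      refine IsHomogeneous.prod _ _ _ fun j _ => ?_
      have := (isHomogeneous_X K (j : Fin (n + 2))).pow (m j)
      rwa [one_mul] at this
    have h2 := (isHomogeneous_X K (0 : Fin (n + 2))).pow (e - m.degree)
    rw [one_mul] at h2
    have h3 := (isHomogeneous_C (Fin (n + 2)) (P.coeff m)).mul (h1.mul h2)
    rwa [zero_add, Nat.add_sub_cancel' hm1] at h3
  · unfold deh
    rw [map_sum]
    conv_rhs => rw [P.as_sum]
    refine Finset.sum_congr rfl fun m _ => ?_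
    rw [map_mul, map_mul, map_pow, algHom_C, aeval_X, Finsupp.prod, map_prod, monomial_eq]
    have h0 : tau (R := K) (0 : Fin (n + 2)) 0 = 1 := by
      unfold tau
      rw [dif_pos rfl]
    rw [h0, one_pow, mul_one]
    congr 1
    rw [Finsupp.prod]
    refine Finset.prod_congr rfl fun j _ => ?_
    rw [map_pow, aeval_X]
    congr 1
    unfold tau
    rw [dif_neg j.2]

theorem ker_chart {K F : Type} [Field K] [Field F] [Algebra K F] {n : ℕ}
    (x : Fin (n + 2) → F) (hx0 : x 0 = 1)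
    (hgen : IntermediateField.adjoin K (Set.range x) = ⊤)
    (b : Fin n → F) (htb : IsTranscendenceBasis K b)
    (G : MvPolynomial (Fin (n + 2)) K) (hG : Prime G) (e : ℕ) (hGe : G.IsHomogeneous e)
    (hGx : aeval x G = 0) (P : MvPolynomial {j : Fin (n + 2) // j ≠ 0} K) :
    aeval (fun j : {j : Fin (n + 2) // j ≠ 0} => x j) P = 0 ↔ deh 0 G ∣ P := by
  constructor
  · intro h
    obtain ⟨d, Q, hQ, rfl⟩ := exists_homog P
    rw [aeval_deh 0 x hx0] at h
    obtain ⟨R, rfl⟩ := hyp_dvd x hx0 hgen b htb G hG e hGe hGx d Q hQ h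
    exact ⟨deh 0 R, by unfold deh; rw [map_mul]⟩
  · rintro ⟨R, rfl⟩
    rw [map_mul, aeval_deh 0 x hx0, hGx, zero_mul]

theorem funField {K : Type} [Field K] {n : ℕ} (G : MvPolynomial (Fin (n + 2)) K)
    (hG : Irreducible G) (d : ℕ) (hGd : G.IsHomogeneous d) (hX : ¬ G ∣ X 0) {F : Type} [Field F]
    (e : F ≃+* FractionRing (MvPolynomial {j : Fin (n + 2) // j ≠ 0} K ⧸
      Ideal.span {deh 0 G})) :
    ∃ (_ : Algebra K F) (x : Fin (n + 2) → F) (b : Fin n → F), x 0 = 1 ∧ aeval x G = 0 ∧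
      IntermediateField.adjoin K (Set.range x) = ⊤ ∧ IsTranscendenceBasis K b := by
  classical
  obtain ⟨F', _, _, x', b', hx0, hrel, hgen, htb⟩ := exists_ff G hG d hGd hX
  have hker := ker_chart x' hx0 hgen b' htb G hG.prime d hGd hrel
  let I : Ideal (MvPolynomial {j : Fin (n + 2) // j ≠ 0} K) := Ideal.span {deh 0 G}
  let ψ : (MvPolynomial {j : Fin (n + 2) // j ≠ 0} K ⧸ I) →ₐ[K] F' :=
    Ideal.Quotient.liftₐ I (aeval (fun j : {j : Fin (n + 2) // j ≠ 0} => x' j)) (by
      intro a ha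
      rw [hker]
      exact Ideal.mem_span_singleton.1 ha)
  have hψ : ∀ P, ψ (Ideal.Quotient.mk I P) =
      aeval (fun j : {j : Fin (n + 2) // j ≠ 0} => x' j) P := fun P => rfl
  have hinj : Function.Injective ψ := by
    rw [injective_iff_map_eq_zero]
    intro a ha
    obtain ⟨P, rfl⟩ := Ideal.Quotient.mk_surjective a
    rw [hψ, hker] at ha
    exact Ideal.Quotient.eq_zero_iff_mem.2 (Ideal.mem_span_singleton.2 ha)
  have hdom : IsDomain (MvPolynomial {j : Fin (n + 2) // j ≠ 0} K ⧸ I) :=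
    hinj.isDomain (ψ : _ →+* F')
  let _ : Algebra (MvPolynomial {j : Fin (n + 2) // j ≠ 0} K ⧸ I) F' := (ψ : _ →+* F').toAlgebra
  have hfs : FaithfulSMul (MvPolynomial {j : Fin (n + 2) // j ≠ 0} K ⧸ I) F' :=
    (faithfulSMul_iff_algebraMap_injective _ F').2 hinj
  have hfr : IsFractionRing (MvPolynomial {j : Fin (n + 2) // j ≠ 0} K ⧸ I) F' := by
    refine IsFractionRing.of_field _ F' ?_
    intro z
    have hz : z ∈ IntermediateField.adjoin K (Set.range x') := by rw [hgen]; trivial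
    rw [IntermediateField.mem_adjoin_range_iff] at hz
    obtain ⟨r, s, rfl⟩ := hz
    have hr : ∀ r : MvPolynomial (Fin (n + 2)) K, ∃ a, ψ a = aeval x' r := by
      intro r
      refine ⟨Ideal.Quotient.mk I (deh 0 r), ?_⟩
      rw [hψ, aeval_deh 0 x' hx0]
    obtain ⟨a, ha⟩ := hr r
    obtain ⟨c, hc⟩ := hr s
    refine ⟨a, c, ?_⟩
    change _ = ψ a / ψ c
    rw [ha, hc]
  let φ : FractionRing (MvPolynomial {j : Fin (n + 2) // j ≠ 0} K ⧸ I) ≃+* F' :=
    (FractionRing.algEquiv (MvPolynomial {j : Fin (n + 2) // j ≠ 0} K ⧸ I) F').toRingEquiv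
  let ε : F ≃+* F' := e.trans φ
  let alg : Algebra K F := ((ε.symm : F' →+* F).comp (algebraMap K F')).toAlgebra
  let εa : F ≃ₐ[K] F' := AlgEquiv.ofRingEquiv (f := ε) (by
    intro r
    change ε (ε.symm (algebraMap K F' r)) = _
    rw [RingEquiv.apply_symm_apply])
  refine ⟨alg, fun i => εa.symm (x' i), fun i => εa.symm (b' i), ?_, ?_, ?_, ?_⟩
  · change εa.symm (x' 0) = 1
    rw [hx0, map_one]
  · have h1 : (aeval (fun i => εa.symm (x' i)) : MvPolynomial (Fin (n + 2)) K →ₐ[K] F) =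
        (εa.symm : F' →ₐ[K] F).comp (aeval x') := by
      apply MvPolynomial.algHom_ext
      intro i
      rw [aeval_X, AlgHom.comp_apply, aeval_X]
      rfl
    rw [h1, AlgHom.comp_apply, hrel, map_zero]
  · have h1 := congrArg (fun L : IntermediateField K F' => L.map (εa.symm : F' →ₐ[K] F)) hgen
    rw [IntermediateField.adjoin_map, ← Set.range_comp] at h1
    have h2 : (⊤ : IntermediateField K F').map (εa.symm : F' →ₐ[K] F) = ⊤ := by
      rw [eq_top_iff]
      intro z _
      exact ⟨εa z, trivial, εa.symm_apply_apply z⟩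
    rw [h2] at h1
    exact h1
  · exact εa.symm.isTranscendenceBasis htb

theorem span_deh_prime {K : Type} [Field K] {n : ℕ} (G : MvPolynomial (Fin (n + 2)) K)
    (hG : Irreducible G) (d : ℕ) (hGd : G.IsHomogeneous d) (hX : ¬ G ∣ X 0) :
    (Ideal.span {deh 0 G}).IsPrime := by
  obtain ⟨F', _, _, x', b', hx0, hrel, hgen, htb⟩ := exists_ff G hG d hGd hX
  have hker := ker_chart x' hx0 hgen b' htb G hG.prime d hGd hrel
  have h1 : Ideal.span {deh 0 G} = RingHom.ker
      (aeval (fun j : {j : Fin (n + 2) // j ≠ 0} => x' j) :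
        MvPolynomial {j : Fin (n + 2) // j ≠ 0} K →ₐ[K] F') := by
    ext P
    rw [Ideal.mem_span_singleton, RingHom.mem_ker, ← hker]
  rw [h1]
  exact RingHom.ker_isPrime _

end Pool.Agent.Q40.OD
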