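import Pool.Agent.Q40.OD.Stm4

/-! Project OD: members of families. -/

set_option autoImplicit false
set_option linter.unusedSectionVars false
set_option linter.unusedVariables false

namespace Pool.Agent.Q40.OD

open Pool.Agent.TH214.RM MvPolynomial

theorem nondeg_of_ndField {O : Type} [CommRing O] {n : ℕ} (𝔭 : Ideal O)
    (G : MvPolynomial (Fin (n + 2)) O)
    (h : ∀ (κ : Type) [Field κ] (φ : O →+* κ), RingHom.ker φ = 𝔭 → NdField (map φ G)) :
    Nondeg 𝔭 G := by
  intro s Q hQ hC hG hD hdet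
  let κ := FractionRing (MvPolynomial {j : Fin (n + 2) // j ≠ s} O ⧸ Q)
  let ρ : MvPolynomial {j : Fin (n + 2) // j ≠ s} O →+* κ :=
    (algebraMap (MvPolynomial {j : Fin (n + 2) // j ≠ s} O ⧸ Q) κ).comp (Ideal.Quotient.mk Q)
  have hρ : ∀ y, ρ y = 0 ↔ y ∈ Q := by
    intro y
    change algebraMap _ κ (Ideal.Quotient.mk Q y) = 0 ↔ _
    rw [map_eq_zero_iff _ (IsFractionRing.injective (MvPolynomial {j : Fin (n + 2) // j ≠ s} O ⧸ Q)
      κ), Ideal.Quotient.eq_zero_iff_mem]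
  let φ : O →+* κ := ρ.comp C
  let P : {j : Fin (n + 2) // j ≠ s} → κ := fun j => ρ (X j)
  have hev : ∀ y : MvPolynomial {j : Fin (n + 2) // j ≠ s} O, eval P (map φ y) = ρ y := by
    intro y
    rw [eval_map]
    induction y using MvPolynomial.induction_on with
    | C a => simp [φ]
    | add p q hp hq => rw [eval₂_add, hp, hq, map_add]
    | mul_X p i hp => rw [eval₂_mul, hp, eval₂_X, map_mul]
  have hker : RingHom.ker φ = 𝔭 := by
    ext r
    rw [RingHom.mem_ker]
    change ρ (C r) = 0 ↔ _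
    rw [hρ, hC]
  have h1 := h κ φ hker s P ?_ ?_
  · apply h1
    have h2 : (Hess (deh s (map φ G))).map (eval P) = (Hess (deh s G)).map ρ := by
      ext a b
      simp only [Matrix.map_apply, Hess, Matrix.of_apply]
      rw [← map_deh, pderiv_map, pderiv_map, hev]
    rw [h2]
    have h3 : ((Hess (deh s G)).map ρ).det = ρ (Hess (deh s G)).det := by
      rw [RingHom.map_det]
      rfl
    rw [h3, hρ]
    exact hdet
  · rw [← map_deh, hev, hρ]
    exact hG
  · intro b
    rw [← map_deh, pderiv_map, hev, hρ]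
    exact hD b

theorem deh_sub {ι R : Type} [CommRing R] [DecidableEq ι] (s : ι) (G H : MvPolynomial ι R) :
    deh s (G - H) = deh s G - deh s H := map_sub _ _ _

theorem map_C_le {σ O : Type} [CommRing O] (𝔭 : Ideal O) (Q : Ideal (MvPolynomial σ O))
    (hC : ∀ r : O, C r ∈ Q ↔ r ∈ 𝔭) : 𝔭.map (C : O →+* MvPolynomial σ O) ≤ Q := by
  rw [Ideal.map_le_iff_le_comap]
  exact fun r hr => (hC r).2 hr

theorem deh_mem_map {ι O : Type} [CommRing O] [DecidableEq ι] (s : ι) (I : Ideal O)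
    (z : MvPolynomial ι O) (hz : ∀ m, coeff m z ∈ I) :
    deh s z ∈ I.map (C : O →+* MvPolynomial {j : ι // j ≠ s} O) := by
  rw [z.as_sum]
  unfold deh
  rw [map_sum]
  refine Ideal.sum_mem _ fun m _ => ?_
  rw [aeval_monomial]
  exact Ideal.mul_mem_right _ _ (Ideal.mem_map_of_mem _ (hz m))

theorem crit_congr {O : Type} [CommRing O] {n : ℕ} (𝔭 : Ideal O)
    (G H : MvPolynomial (Fin (n + 2)) O) (h : ∀ m, coeff m (G - H) ∈ 𝔭 ^ 2) (hH : Crit 𝔭 H) :
    Crit 𝔭 G := by
  intro s Q hQ hC hG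
  have h1 : deh s (G - H) ∈ Q ^ 2 := by
    have h2 := deh_mem_map s (𝔭 ^ 2) (G - H) h
    rw [Ideal.map_pow] at h2
    exact Ideal.pow_right_mono (map_C_le 𝔭 Q hC) 2 h2
  have h1' : deh s (G - H) ∈ Q := Ideal.pow_le_self two_ne_zero h1
  have hGH : deh s G = deh s H + deh s (G - H) := by rw [deh_sub]; ring
  have hHQ : deh s H ∈ Q := by
    have h2 := Q.sub_mem hG h1'
    rwa [hGH, add_sub_cancel_right] at h2
  rcases hH s Q hQ hC hHQ with ⟨j, hj⟩ | hr
  · left
    refine ⟨j, fun hcon => hj ?_⟩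
    have h3 : pderiv j (deh s (G - H)) ∈ Q := by
      have h4 : deh s (G - H) ∈ Q ^ 2 := h1
      rw [pow_two] at h4
      refine Submodule.mul_induction_on h4 (fun a ha b hb => ?_) (fun a b ha hb => ?_)
      · rw [Derivation.leibniz, smul_eq_mul, smul_eq_mul]
        exact Q.add_mem (Q.mul_mem_right _ ha) (Q.mul_mem_right _ hb)
      · rw [map_add]
        exact Q.add_mem ha hb
    have h5 := Q.sub_mem hcon h3
    rwa [hGH, map_add, add_sub_cancel_right] at h5
  · right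
    intro y hy hcon
    apply hr y hy
    have h5 := (Q ^ 2).sub_mem hcon ((Q ^ 2).mul_mem_left y h1)
    rwa [hGH, mul_add, add_sub_cancel_right] at h5

theorem coeff_pderiv_mem {σ O : Type} [CommRing O] (I : Ideal O) (z : MvPolynomial σ O)
    (hz : z ∈ I.map (C : O →+* MvPolynomial σ O)) (j : σ) :
    pderiv j z ∈ I.map (C : O →+* MvPolynomial σ O) := by
  classical
  rw [mem_map_C_iff] at hz ⊢
  intro m
  rw [coeff_pderiv]
  exact I.mul_mem_right _ (hz _)

theorem nondeg_congr {O : Type} [CommRing O] {n : ℕ} (𝔭 : Ideal O)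
    (G H : MvPolynomial (Fin (n + 2)) O) (h : ∀ m, coeff m (G - H) ∈ 𝔭) (hH : Nondeg 𝔭 H) :
    Nondeg 𝔭 G := by
  intro s Q hQ hC hG hD
  have h1 : ∀ z ∈ 𝔭.map (C : O →+* MvPolynomial {j : Fin (n + 2) // j ≠ s} O), z ∈ Q :=
    fun z hz => map_C_le 𝔭 Q hC hz
  have h2 := deh_mem_map s 𝔭 (G - H) h
  have hGH : deh s G = deh s H + deh s (G - H) := by rw [deh_sub]; ring
  have key : ∀ y z : MvPolynomial {j : Fin (n + 2) // j ≠ s} O, z ∈ Q → y + z ∈ Q → y ∈ Q := by
    intro y z hz hyz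
    have h3 := Q.sub_mem hyz hz
    rwa [add_sub_cancel_right] at h3
  have h5 := hH s Q hQ hC ?_ ?_
  · intro hcon
    apply h5
    rw [← Ideal.Quotient.eq_zero_iff_mem, RingHom.map_det] at hcon ⊢
    rw [← hcon]
    congr 1
    ext a b
    simp only [RingHom.mapMatrix_apply, Matrix.map_apply, Hess, Matrix.of_apply]
    rw [Ideal.Quotient.eq, hGH, map_add, map_add, sub_add_cancel_left, neg_mem_iff]
    exact h1 _ (coeff_pderiv_mem _ _ (coeff_pderiv_mem _ _ h2 b) a)
  · rw [hGH] at hG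
    exact key _ _ (h1 _ h2) hG
  · intro j
    have h3 := hD j
    rw [hGH, map_add] at h3
    exact key _ _ (h1 _ (coeff_pderiv_mem _ _ h2 j)) h3

end Pool.Agent.Q40.OD
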