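import Pool.Agent.Q40.OD.Fam1
import Pool.Agent.Q40.OD.Count

/-! Project OD: members of families. -/

set_option autoImplicit false
set_option linter.unusedSectionVars false
set_option linter.unusedVariables false

namespace Pool.Agent.Q40.OD

open Pool.Agent.TH214.RM MvPolynomial

theorem map_form {R S : Type} [CommRing R] [CommRing S] (φ : R →+* S) (n d : ℕ) (c : Ix n d → R) :
    map φ (form n d c) = form n d fun α => φ (c α) := by
  unfold form
  rw [map_sum]
  simp only [map_monomial]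

theorem C_mul_form {R : Type} [CommRing R] (n d : ℕ) (a : R) (c : Ix n d → R) :
    C a * form n d c = form n d fun α => a * c α := by
  unfold form
  rw [Finset.mul_sum]
  simp only [C_mul_monomial]

/-- The conclusion of OD-51. -/
def Cert {R : Type} [CommRing R] {m : ℕ} (n d : ℕ) (c : Ix n d → MvPolynomial (Fin m) R)
    (b : MvPolynomial (Fin m) R) (N : R) : Prop :=
  ∀ (κ : Type) [Field κ] [Algebra R κ], algebraMap R κ N ≠ 0 →
      ∀ v : Fin m → κ, aeval v b ≠ 0 → NdField (form n d fun α => aeval v (c α))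

theorem nondeg_of_cert {R O : Type} [CommRing R] [CommRing O] [Algebra R O] {m : ℕ} (n d : ℕ)
    (c : Ix n d → MvPolynomial (Fin m) R) (b : MvPolynomial (Fin m) R) (N : R)
    (h : Cert n d c b N) (𝔭 : Ideal O) (hN : algebraMap R O N ∉ 𝔭) (t : Fin m → O)
    (hb : aeval t b ∉ 𝔭) : Nondeg 𝔭 (form n d fun α => aeval t (c α)) := by
  apply nondeg_of_ndField
  intro κ _ φ hφ
  let _ : Algebra R κ := (φ.comp (algebraMap R O)).toAlgebra
  let φ' : O →ₐ[R] κ := { toRingHom := φ, commutes' := fun r => rfl }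
  have h1 : ∀ P : MvPolynomial (Fin m) R, φ (aeval t P) = aeval (fun i => φ (t i)) P := by
    intro P
    have h2 := (MvPolynomial.comp_aeval_apply t φ' P)
    exact h2
  have h2 : map φ (form n d fun α => aeval t (c α)) =
      form n d fun α => aeval (fun i => φ (t i)) (c α) := by
    rw [map_form]
    simp only [h1]
  rw [h2]
  refine h κ ?_ _ ?_
  · change φ (algebraMap R O N) ≠ 0
    rw [Ne, ← RingHom.mem_ker, hφ]
    exact hN
  · rw [← h1, Ne, ← RingHom.mem_ker, hφ]
    exact hb

theorem aeval_mul_of_homog {R A : Type} [CommRing R] [CommRing A] [Algebra R A] {m : ℕ} (e : ℕ)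
    (P : MvPolynomial (Fin m) R) (hP : P.IsHomogeneous e) (l : A) (t : Fin m → A) :
    aeval (fun i => l * t i) P = l ^ e * aeval t P := by
  have h1 : (fun i => l * t i) = fun i => t i * l := funext fun i => mul_comm _ _
  rw [h1, aeval_scale t l e P hP, mul_comm]

theorem locGoodAt_of_eq {O L : Type} [CommRing O] [Field L] [Algebra O L] {n : ℕ} (𝔭 : Ideal O)
    (H : MvPolynomial (Fin (n + 2)) O) (G : MvPolynomial (Fin (n + 2)) L) (l : L) (hl : l ≠ 0)
    (h : map (algebraMap O L) H = C l * G) (hH : Crit 𝔭 H ∨ Nondeg 𝔭 H) : LocGoodAt O 𝔭 G := by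
  refine ⟨H, l, 1, 1, hl, one_mul 1, ?_, hH⟩
  have h1 : (fun i : Fin (n + 2) => ∑ j, C ((1 : Matrix (Fin (n + 2)) (Fin (n + 2)) L) i j) *
      (X j : MvPolynomial (Fin (n + 2)) L)) = X := by
    funext i
    rw [Finset.sum_eq_single i]
    · rw [Matrix.one_apply_eq, C_1, one_mul]
    · intro j _ hj
      rw [Matrix.one_apply_ne (Ne.symm hj), C_0, zero_mul]
    · intro h; exact absurd (Finset.mem_univ i) h
  rw [h1, aeval_X_left_apply, h]

theorem map_member {R O L : Type} [CommRing R] [CommRing O] [Field L] [Algebra R O] [Algebra O L]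
    [Algebra R L] [IsScalarTower R O L] {m : ℕ} (n d e : ℕ)
    (c : Ix n d → MvPolynomial (Fin m) R) (hc : ∀ α, (c α).IsHomogeneous e) (t : Fin m → L) (l : L)
    (t' : Fin m → O) (ht : ∀ i, algebraMap O L (t' i) = l * t i) :
    map (algebraMap O L) (form n d fun α => aeval t' (c α)) =
      C (l ^ e) * form n d fun α => aeval t (c α) := by
  rw [map_form, C_mul_form]
  congr 1
  funext α
  rw [← aeval_mul_of_homog e _ (hc α) l t, ← aeval_algebraMap_apply]
  congr 1
  congr 1
  funext i
  exact ht i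

/-- The members of the family. -/
theorem locGoodAt_member {R O L : Type} [CommRing R] [CommRing O] [Field L] [Algebra R O]
    [Algebra O L] [Algebra R L] [IsScalarTower R O L] {m : ℕ} (n d e : ℕ)
    (c : Ix n d → MvPolynomial (Fin m) R) (hc : ∀ α, (c α).IsHomogeneous e)
    (b : MvPolynomial (Fin m) R) (N : R) (h : Cert n d c b N) (𝔭 : Ideal O)
    (hN : algebraMap R O N ∉ 𝔭) (t : Fin m → L) (l : L) (hl : l ≠ 0)
    (t' : Fin m → O) (ht : ∀ i, algebraMap O L (t' i) = l * t i) (hb : aeval t' b ∉ 𝔭) :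
    LocGoodAt O 𝔭 (form n d fun α => aeval t (c α)) :=
  locGoodAt_of_eq 𝔭 _ _ (l ^ e) (pow_ne_zero _ hl) (map_member n d e c hc t l t' ht)
    (Or.inr (nondeg_of_cert n d c b N h 𝔭 hN t' hb))

theorem aeval_sub_mem {R O : Type} [CommRing R] [CommRing O] [Algebra R O] {m : ℕ} (I : Ideal O)
    (t t' : Fin m → O) (h : ∀ i, t i - t' i ∈ I) (P : MvPolynomial (Fin m) R) :
    aeval t P - aeval t' P ∈ I := by
  rw [← Ideal.Quotient.eq]
  let φ : O →ₐ[R] O ⧸ I := Ideal.Quotient.mkₐ R I
  change φ (aeval t P) = φ (aeval t' P)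
  rw [comp_aeval_apply, comp_aeval_apply]
  congr 1
  congr 1
  funext i
  exact Ideal.Quotient.eq.2 (h i)

/-- The condition at a prime depends only on the parameters modulo the square of the prime. -/
theorem good_congr {R O : Type} [CommRing R] [CommRing O] [Algebra R O] {m : ℕ} (n d : ℕ)
    (c : Ix n d → MvPolynomial (Fin m) R) (𝔭 : Ideal O) (t t' : Fin m → O)
    (h : ∀ i, t i - t' i ∈ 𝔭 ^ 2)
    (ht : Crit 𝔭 (form n d fun α => aeval t' (c α)) ∨
      Nondeg 𝔭 (form n d fun α => aeval t' (c α))) :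
    Crit 𝔭 (form n d fun α => aeval t (c α)) ∨ Nondeg 𝔭 (form n d fun α => aeval t (c α)) := by
  have h1 : ∀ α, coeff α ((form n d fun α => aeval t (c α)) - form n d fun α => aeval t' (c α)) ∈
      𝔭 ^ 2 := by
    intro α
    rw [coeff_sub]
    by_cases hα : α.degree = d
    · rw [coeff_form (fun α => aeval t (c α)) ⟨α, hα⟩,
        coeff_form (fun α => aeval t' (c α)) ⟨α, hα⟩]
      exact aeval_sub_mem _ _ _ h _
    · rw [coeff_form' _ _ hα, coeff_form' _ _ hα, sub_zero]
      exact zero_mem _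
  rcases ht with ht | ht
  · exact Or.inl (crit_congr 𝔭 _ _ h1 ht)
  · exact Or.inr (nondeg_congr 𝔭 _ _ (fun α => Ideal.pow_le_self two_ne_zero (h1 α)) ht)

/-- A point of the projective space over the fraction field of a Dedekind domain has coordinates
which are integral and not all in `𝔭`. -/
theorem exists_coord {O L : Type} [CommRing O] [IsDedekindDomain O] [Field L] [Algebra O L]
    [IsFractionRing O L] {m : ℕ} (t : Fin m → L) (ht : t ≠ 0) (𝔭 : Ideal O) [𝔭.IsPrime]
    (h0 : 𝔭 ≠ ⊥) :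
    ∃ (l : L) (t' : Fin m → O), l ≠ 0 ∧ (∀ i, algebraMap O L (t' i) = l * t i) ∧ ∃ i, t' i ∉ 𝔭 := by
  classical
  have hne : Nonempty (Fin m) := by
    by_contra h
    rw [not_nonempty_iff] at h
    exact ht (Subsingleton.elim _ _)
  let v : IsDedekindDomain.HeightOneSpectrum O := ⟨𝔭, inferInstance, h0⟩
  obtain ⟨i₀, hi₀⟩ := Finite.exists_max (fun i => v.valuation L (t i))
  have ht0 : t i₀ ≠ 0 := by
    intro h
    apply ht
    funext i
    have h1 := hi₀ i
    simp only [h, map_zero, le_zero_iff, map_eq_zero] at h1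
    exact h1
  have hv0 : v.valuation L (t i₀) ≠ 0 := (Valuation.ne_zero_iff _).2 ht0
  have h1 : ∀ i, ∃ (a : O) (s : v.asIdeal.primeCompl),
      t i / t i₀ * algebraMap O L s = algebraMap O L a := by
    intro i
    apply v.exists_primeCompl_mul_eq_of_integer
    rw [map_div₀]
    exact div_le_one_of_le₀ (hi₀ i) zero_le
  choose a s has using h1
  let S : O := ∏ i, (s i : O)
  have hS : S ∉ 𝔭 := by
    intro h
    obtain ⟨i, _, hi⟩ := (Ideal.IsPrime.prod_mem_iff (p := 𝔭)).1 h
    exact (s i).2 hi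
  have hSL : algebraMap O L S ≠ 0 := by
    intro h
    apply hS
    rw [(map_eq_zero_iff _ (IsFractionRing.injective O L)).1 h]
    exact zero_mem _
  refine ⟨algebraMap O L S / t i₀, fun i => a i * ∏ j ∈ Finset.univ.erase i, (s j : O),
    div_ne_zero hSL ht0, ?_, i₀, ?_⟩
  · intro i
    have h2 : S = (s i : O) * ∏ j ∈ Finset.univ.erase i, (s j : O) :=
      (Finset.mul_prod_erase _ _ (Finset.mem_univ i)).symm
    rw [map_mul, ← has i, h2, map_mul]
    field_simp
  · have h3 := has i₀
    rw [div_self ht0, one_mul] at h3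
    have h4 : (s i₀ : O) = a i₀ := IsFractionRing.injective O L h3
    change a i₀ * ∏ j ∈ Finset.univ.erase i₀, (s j : O) ∉ 𝔭
    rw [← h4, Finset.mul_prod_erase _ (fun j => (s j : O)) (Finset.mem_univ i₀)]
    exact hS

end Pool.Agent.Q40.OD
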