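import Pool.Agent.Q40.OD.PG1
import Pool.Agent.Q40.OD.Asm1

/-! Project OD: families, final form. -/

set_option autoImplicit false
set_option linter.unusedSectionVars false
set_option linter.unusedVariables false

namespace Pool.Agent.Q40.OD

open Pool.Agent.TH214.RM MvPolynomial

/-- The member of the family `F` at `t`. -/
noncomputable def mem {R A : Type} [CommRing R] [CommRing A] {m n : ℕ} (φ : R →+* A)
    (F : MvPolynomial (Fin n) (MvPolynomial (Fin m) R)) (t : Fin m → A) :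
    MvPolynomial (Fin n) A := map (eval₂Hom φ t) F

theorem mem_eq_form {R A : Type} [CommRing R] [CommRing A] {m n d : ℕ} (φ : R →+* A)
    (F : MvPolynomial (Fin (n + 2)) (MvPolynomial (Fin m) R)) (hF : F.IsHomogeneous d)
    (t : Fin m → A) :
    letI := φ.toAlgebra
    mem φ F t = form n d fun α => aeval t (coeff α.1 F) := by
  letI := φ.toAlgebra
  have h1 := congrArg (map (eval₂Hom φ t)) (form_of_homog F hF)
  rw [map_form] at h1
  exact h1.symm

/-- Condition of `PG1` for a finite set of polynomials. -/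
theorem exists_certs {R K : Type} [CommRing R] [IsDomain R] [Field K] [Algebra R K]
    [IsFractionRing R K] {m : ℕ} (n d : ℕ) (c : Ix n d → MvPolynomial (Fin m) R)
    (B : Set (MvPolynomial (Fin m) R)) (hB : B.Finite)
    (hnd : ∀ v : Fin m → AlgebraicClosure K, (∃ b ∈ B, aeval v b ≠ 0) →
      NdField (form n d fun α => aeval v (c α))) :
    ∃ N : R, N ≠ 0 ∧ ∀ b ∈ B, Cert n d c b N := by
  classical
  have key : ∀ b : MvPolynomial (Fin m) R, ∃ N : R, N ≠ 0 ∧ (b ∈ B → Cert n d c b N) := by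
    intro b
    by_cases hb : b ∈ B
    · obtain ⟨N, hN, h⟩ := pg1 (K := K) n d c b fun v hv => hnd v ⟨b, hb, hv⟩
      exact ⟨N, hN, fun _ => h⟩
    · exact ⟨1, one_ne_zero, fun h => absurd h hb⟩
  choose N hN hcert using key
  refine ⟨∏ b ∈ hB.toFinset, N b, Finset.prod_ne_zero_iff.2 fun b _ => hN b, fun b hb => ?_⟩
  intro κ _ _ hNκ v hv
  refine hcert b hb κ ?_ v hv
  intro h
  apply hNκ
  rw [map_prod]
  exact Finset.prod_eq_zero (hB.mem_toFinset.2 hb) h

/-- The parameter `t` has coordinates `l t` integral at `𝔭`, for which some `b` in `B` is not zero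
modulo `𝔭`, and `N` is not zero modulo `𝔭`. -/
def Avoids {R O L : Type} [CommRing R] [CommRing O] [Field L] [Algebra O L] {m : ℕ} (φ : R →+* O)
    (N : R) (B : Set (MvPolynomial (Fin m) R)) (𝔭 : Ideal O) (t : Fin m → L) : Prop :=
  φ N ∉ 𝔭 ∧ ∃ (l : L) (t' : Fin m → O), l ≠ 0 ∧ (∀ i, algebraMap O L (t' i) = l * t i) ∧
    ∃ b ∈ B, eval₂ φ t' b ∉ 𝔭

theorem locGoodAt_of_avoids {R O L : Type} [CommRing R] [CommRing O] [Field L] [Algebra O L]
    {m n d e : ℕ} (φ : R →+* O) (F : MvPolynomial (Fin (n + 2)) (MvPolynomial (Fin m) R))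
    (hF : F.IsHomogeneous d) (hc : ∀ α, (coeff α F).IsHomogeneous e) (N : R)
    (B : Set (MvPolynomial (Fin m) R))
    (h : ∀ b ∈ B, Cert n d (fun α => coeff α.1 F) b N) (𝔭 : Ideal O) (t : Fin m → L)
    (ht : Avoids φ N B 𝔭 t) : LocGoodAt O 𝔭 (mem ((algebraMap O L).comp φ) F t) := by
  obtain ⟨hN, l, t', hl, htt, b, hb, hbt⟩ := ht
  let _ : Algebra R O := φ.toAlgebra
  let _ : Algebra R L := ((algebraMap O L).comp φ).toAlgebra
  have hst : IsScalarTower R O L := IsScalarTower.of_algebraMap_eq fun _ => rfl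
  rw [mem_eq_form ((algebraMap O L).comp φ) F hF t]
  exact locGoodAt_member n d e (fun α => coeff α.1 F) (fun α => hc _) b N (h b hb) 𝔭 hN t l hl t'
    htt hbt

theorem locGood_iff {O K : Type} [CommRing O] [Field K] [Algebra O K] {n : ℕ}
    (G : MvPolynomial (Fin (n + 2)) K) :
    LocGood O G ↔ ∀ 𝔭 : Ideal O, 𝔭.IsPrime → 𝔭 ≠ ⊥ → LocGoodAt O 𝔭 G := Iff.rfl

theorem mem_homog {R A : Type} [CommRing R] [CommRing A] {m n d : ℕ} (φ : R →+* A)
    (F : MvPolynomial (Fin (n + 2)) (MvPolynomial (Fin m) R)) (hF : F.IsHomogeneous d)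
    (t : Fin m → A) : (mem φ F t).IsHomogeneous d := hF.map _

end Pool.Agent.Q40.OD
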