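import Pool.Agent.Q40.OD.Sieve
import Pool.Agent.Q40.OD.Fam3
import Pool.Agent.Q40.OD.Base

/-! Project OD, part III: families over the integers. -/

set_option autoImplicit false
set_option linter.unusedSectionVars false
set_option linter.unusedVariables false

namespace Pool.Agent.Q40.OD

open Pool.Agent.TH214.RM MvPolynomial

theorem map_mem {R A A' : Type} [CommRing R] [CommRing A] [CommRing A'] {m n : ℕ} (φ : R →+* A)
    (ψ : A →+* A') (F : MvPolynomial (Fin n) (MvPolynomial (Fin m) R)) (t : Fin m → A) :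
    map ψ (mem φ F t) = mem (ψ.comp φ) F (fun i => ψ (t i)) := by
  unfold mem
  rw [map_map]
  congr 1
  apply MvPolynomial.ringHom_ext
  · intro r
    simp
  · intro i
    simp

theorem exists_delta {m n : ℕ} (F : MvPolynomial (Fin n) (MvPolynomial (Fin m) ℤ))
    (hgen : Smooth (map (algebraMap (MvPolynomial (Fin m) ℤ)
      (FractionRing (MvPolynomial (Fin m) ℤ))) F)) :
    ∃ Δ : MvPolynomial (Fin m) ℤ, Δ ≠ 0 ∧ ∀ t : Fin m → ℤ, eval t Δ ≠ 0 →
      Smooth (map (Int.castRingHom ℚ) (mem (RingHom.id ℤ) F t)) := by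
  classical
  have hex : ∀ i, ∃ s : MvPolynomial (Fin m) ℤ, s ≠ 0 ∧ ∃ k : ℕ,
      C s * X i ^ k ∈ Ideal.span (Set.range fun j => pderiv j F) := by
    intro i
    obtain ⟨k, hk⟩ := hgen i
    have hspan : (Set.range fun j => pderiv j (map (algebraMap (MvPolynomial (Fin m) ℤ)
        (FractionRing (MvPolynomial (Fin m) ℤ))) F)) =
        map (algebraMap (MvPolynomial (Fin m) ℤ) (FractionRing (MvPolynomial (Fin m) ℤ))) ''
          (Set.range fun j => pderiv j F) := by
      rw [← Set.range_comp]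
      congr 1
      funext j
      exact pderiv_map
    rw [hspan] at hk
    obtain ⟨s, hs, y, hy, hys⟩ := clear_span (R := FractionRing (MvPolynomial (Fin m) ℤ))
      (nonZeroDivisors (MvPolynomial (Fin m) ℤ)) _ _ hk
    refine ⟨s, nonZeroDivisors.ne_zero hs, k, ?_⟩
    have h1 : y = C s * X i ^ k := by
      apply map_injective _ (IsFractionRing.injective (MvPolynomial (Fin m) ℤ)
        (FractionRing (MvPolynomial (Fin m) ℤ)))
      rw [hys, map_mul, map_C, map_pow, map_X]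
    rwa [← h1]
  choose s hs k hk using hex
  refine ⟨∏ i, s i, Finset.prod_ne_zero_iff.2 fun i _ => hs i, fun t ht i => ⟨k i, ?_⟩⟩
  have hti : (eval t (s i) : ℚ) ≠ 0 := by
    rw [Int.cast_ne_zero]
    intro h
    apply ht
    rw [map_prod]
    exact Finset.prod_eq_zero (Finset.mem_univ i) h
  let ψ : MvPolynomial (Fin m) ℤ →+* ℚ := (Int.castRingHom ℚ).comp (eval₂Hom (RingHom.id ℤ) t)
  have hψ : map ψ F = map (Int.castRingHom ℚ) (mem (RingHom.id ℤ) F t) := by
    unfold mem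
    rw [map_map]
  have h1 := Ideal.mem_map_of_mem (map ψ) (hk i)
  rw [Ideal.map_span, ← Set.range_comp, map_mul, map_C, map_pow, map_X] at h1
  have h2 : (⇑(map ψ) ∘ fun j => pderiv j F) = fun j => pderiv j (map ψ F) := by
    funext j
    exact pderiv_map.symm
  rw [h2, hψ] at h1
  have h3 : ψ (s i) = (eval t (s i) : ℚ) := rfl
  rw [h3] at h1
  have h4 := Ideal.mul_mem_left _ (C (eval t (s i) : ℚ)⁻¹) h1
  rwa [← mul_assoc, ← C_mul, inv_mul_cancel₀ hti, C_1, one_mul] at h4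

/-- Positive density of the good members of a family over the integers. -/
theorem family_pos {n m d : ℕ} (hm : 1 ≤ m)
    (F : MvPolynomial (Fin (n + 2)) (MvPolynomial (Fin m) ℤ)) (hF : F.IsHomogeneous d)
    (hgen : Smooth (map (algebraMap (MvPolynomial (Fin m) ℤ)
      (FractionRing (MvPolynomial (Fin m) ℤ))) F))
    (B : Set (MvPolynomial (Fin m) ℤ)) (hB : B.Finite) (hcop : Cop B)
    (hnd : ∀ v : Fin m → AlgebraicClosure ℚ,
      (∃ b ∈ B, eval₂ (Int.castRingHom (AlgebraicClosure ℚ)) v b ≠ 0) →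
      NdField (mem (Int.castRingHom (AlgebraicClosure ℚ)) F v))
    (Loc : ℕ → MvPolynomial (Fin (n + 2)) ℤ → Prop)
    (hcongr : ∀ (p : ℕ) (f g : MvPolynomial (Fin (n + 2)) ℤ),
      (∀ μ, coeff μ (f - g) ∈ (Ideal.span {(p : ℤ)}) ^ 2) → Loc p g → Loc p f)
    (hLoc : ∀ (p : ℕ) (f : MvPolynomial (Fin (n + 2)) ℤ),
      Nondeg (Ideal.span {(p : ℤ)}) f → Loc p f)
    (hex : ∀ p : ℕ, p.Prime → ∃ t : Fin m → ℤ, Loc p (mem (RingHom.id ℤ) F t)) :
    ∃ δ : ℝ, 0 < δ ∧ ∃ H₀ : ℕ, ∀ H : ℕ, H₀ ≤ H →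
      δ * (Nat.card {t : Fin m → ℤ // ∀ i, |t i| ≤ H} : ℝ) ≤
        (Nat.card {t : Fin m → ℤ // (∀ i, |t i| ≤ H) ∧
          (Smooth (map (Int.castRingHom ℚ) (mem (RingHom.id ℤ) F t)) ∧
          ∀ p : ℕ, p.Prime → Loc p (mem (RingHom.id ℤ) F t))} : ℝ) := by
  classical
  obtain ⟨Δ, hΔ, hsm⟩ := exists_delta F hgen
  have hnd' : ∀ v : Fin m → AlgebraicClosure ℚ, (∃ b ∈ B, aeval v b ≠ 0) →
      NdField (form n d fun α => aeval v (coeff α.1 F)) := by
    intro v hv
    have h0 : Int.castRingHom (AlgebraicClosure ℚ) = algebraMap ℤ (AlgebraicClosure ℚ) :=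
      RingHom.ext_int _ _
    have h1 := hnd v
    rw [h0] at h1
    have h2 := h1 hv
    have h3 : mem (algebraMap ℤ (AlgebraicClosure ℚ)) F v =
        form n d fun α => aeval v (coeff α.1 F) := by
      have h4 := congrArg (map (eval₂Hom (algebraMap ℤ (AlgebraicClosure ℚ)) v))
        (form_of_homog F hF)
      rw [map_form] at h4
      exact h4.symm
    rwa [h3] at h2
  obtain ⟨N, hN, hcert⟩ := exists_certs (K := ℚ) n d (fun α => coeff α.1 F) B hB hnd'
  have hne : Nonempty (Fin m) := ⟨⟨0, hm⟩⟩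
  have hcop' : Cop ((hB.toFinset : Finset (MvPolynomial (Fin m) ℤ)) :
      Set (MvPolynomial (Fin m) ℤ)) := by
    rw [hB.coe_toFinset]
    exact hcop
  choose bp hbp using hex
  refine sieve_pos hB.toFinset hcop' Δ hΔ N.natAbs
    (fun p => if hp : p.Prime then bp p hp else 0) _ ?_
  intro M hM t ht hΔt hbig
  refine ⟨hsm t hΔt, fun p hp => ?_⟩
  by_cases hpM : p ≤ M
  · refine hcongr p _ _ ?_ (hbp p hp)
    intro μ
    have h1 := ht p hp hpM
    rw [dif_pos hp] at h1
    unfold mem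
    rw [coeff_sub, coeff_map, coeff_map]
    have h2 : ∀ i, t i - bp p hp i ∈ (Ideal.span {(p : ℤ)}) ^ 2 := by
      intro i
      rw [Ideal.span_singleton_pow, Ideal.mem_span_singleton]
      exact h1 i
    have h3 := aeval_sub_mem (R := ℤ) ((Ideal.span {(p : ℤ)}) ^ 2) t (bp p hp) h2 (coeff μ F)
    exact h3
  · push Not at hpM
    obtain ⟨G, hG, hGp⟩ := hbig p hp hpM
    have hG' : G ∈ B := (hB.mem_toFinset).1 hG
    apply hLoc
    have h1 := nondeg_of_cert (R := ℤ) (O := ℤ) n d (fun α => coeff α.1 F) G N (hcert G hG')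
      (Ideal.span {(p : ℤ)}) ?_ t ?_
    · have h2 := mem_eq_form (RingHom.id ℤ) F hF t
      rw [h2]
      exact h1
    · rw [Ideal.mem_span_singleton]
      intro h
      have h3 : (p : ℤ) ∣ N := h
      have h4 : p ∣ N.natAbs := Int.natCast_dvd.1 h3
      have h5 := Nat.le_of_dvd (Int.natAbs_pos.2 hN) h4
      omega
    · rw [Ideal.mem_span_singleton]
      exact hGp

end Pool.Agent.Q40.OD
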