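import Pool.Agent.Q40.OD.Fam4

/-! Project OD, part III: transfer to the ring of integers of the rational numbers. -/

set_option autoImplicit false
set_option linter.unusedSectionVars false
set_option linter.unusedVariables false

namespace Pool.Agent.Q40.OD

open Pool.Agent.TH214.RM MvPolynomial

theorem crit_map_equiv {O O' : Type} [CommRing O] [CommRing O'] (e : O ≃+* O') {n : ℕ}
    (G : MvPolynomial (Fin (n + 2)) O) (𝔭 : Ideal O')
    (h : Crit (𝔭.comap (e : O →+* O')) G) : Crit 𝔭 (map (e : O →+* O') G) := by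
  intro s Q hQ hC hG
  let E : MvPolynomial {j : Fin (n + 2) // j ≠ s} O ≃+* MvPolynomial {j : Fin (n + 2) // j ≠ s} O' :=
    mapEquiv _ e
  have hE : ∀ y, E y = map (e : O →+* O') y := fun y => rfl
  have hp : (Q.comap E.toRingHom).IsPrime :=
    Ideal.comap_isPrime _ _
  have h1 := h s (Q.comap E.toRingHom) hp ?_ ?_
  · rcases h1 with ⟨j, hj⟩ | h1
    · left
      refine ⟨j, fun hcon => hj ?_⟩
      rw [Ideal.mem_comap]
      change map (e : O →+* O') (pderiv j (deh s G)) ∈ Q
      rw [← pderiv_map, map_deh]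
      exact hcon
    · right
      intro y hy hcon
      refine h1 (E.symm y) ?_ ?_
      · rw [Ideal.mem_comap]
        change E (E.symm y) ∉ Q
        rw [E.apply_symm_apply]
        exact hy
      · have h2 : Q.comap E.toRingHom =
            Q.map E.symm.toRingHom := by
          exact (Ideal.map_symm (f := E)).symm
        rw [h2, ← Ideal.map_pow]
        have h3 : E.symm y * deh s G = E.symm.toRingHom
            (y * deh s (map (e : O →+* O') G)) := by
          rw [map_mul]
          congr 1
          change _ = E.symm (deh s (map (e : O →+* O') G))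
          rw [← map_deh, ← hE, E.symm_apply_apply]
        rw [h3]
        exact Ideal.mem_map_of_mem _ hcon
  · intro r
    rw [Ideal.mem_comap, Ideal.mem_comap]
    change map (e : O →+* O') (C r) ∈ Q ↔ _
    rw [map_C, hC]
  · rw [Ideal.mem_comap]
    change map (e : O →+* O') (deh s G) ∈ Q
    rw [map_deh]
    exact hG

theorem locGood_rat {n : ℕ} (f : MvPolynomial (Fin (n + 2)) ℤ)
    (h : ∀ p : ℕ, p.Prime → Crit (Ideal.span {(p : ℤ)}) f ∨ Nondeg (Ideal.span {(p : ℤ)}) f) :
    LocGood (NumberField.RingOfIntegers ℚ) (map (Int.castRingHom ℚ) f) := by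
  intro 𝔭 hp h0
  let e : ℤ ≃+* NumberField.RingOfIntegers ℚ := Rat.ringOfIntegersEquiv.symm
  refine locGoodAt_of_eq 𝔭 (map (e : ℤ →+* NumberField.RingOfIntegers ℚ) f) _ 1 one_ne_zero ?_ ?_
  · rw [map_map, C_1, one_mul]
    have h1 : (algebraMap (NumberField.RingOfIntegers ℚ) ℚ).comp
        (e : ℤ →+* NumberField.RingOfIntegers ℚ) = Int.castRingHom ℚ := RingHom.ext_int _ _
    rw [h1]
  · have hp' : (𝔭.comap (e : ℤ →+* NumberField.RingOfIntegers ℚ)).IsPrime :=
      Ideal.comap_isPrime _ _
    obtain ⟨a, ha⟩ := (IsPrincipalIdealRing.principal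
      (𝔭.comap (e : ℤ →+* NumberField.RingOfIntegers ℚ))).principal
    have ha' : 𝔭.comap (e : ℤ →+* NumberField.RingOfIntegers ℚ) = Ideal.span {a} := ha
    have ha0 : a ≠ 0 := by
      rintro rfl
      apply h0
      rw [eq_bot_iff]
      intro y hy
      have h1 : e.symm y ∈ 𝔭.comap (e : ℤ →+* NumberField.RingOfIntegers ℚ) := by
        rw [Ideal.mem_comap]
        change e (e.symm y) ∈ 𝔭
        rwa [e.apply_symm_apply]
      rw [ha', Ideal.mem_span_singleton, zero_dvd_iff] at h1
      have h2 : y = e 0 := by rw [← h1, e.apply_symm_apply]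
      rw [h2, map_zero]
      exact zero_mem _
    have h1 : Prime a := by
      rw [ha'] at hp'
      exact (Ideal.span_singleton_prime ha0).1 hp'
    have h2 : 𝔭.comap (e : ℤ →+* NumberField.RingOfIntegers ℚ) =
        Ideal.span {((a.natAbs : ℕ) : ℤ)} := by
      rw [ha', Int.span_natAbs]
    rcases h a.natAbs (Int.prime_iff_natAbs_prime.1 h1) with h3 | h3
    · left
      apply crit_map_equiv
      rw [h2]
      exact h3
    · right
      apply nondeg_map
      rw [h2]
      exact h3

end Pool.Agent.Q40.OD
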