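import Pool.Agent.Q40.OD.FF0
import Pool.Agent.Q40.OD.Asm1
import Pool.Agent.H918R2.Quad.Final

/-! Regular proper models of function fields of hypersurfaces. -/

set_option autoImplicit false
set_option linter.unusedSectionVars false
set_option linter.unusedVariables false

open scoped Pointwise

namespace Pool.Agent.Q40.OD

open Pool.Agent.TH214.RM Pool.Agent.H918R2.Quad Pool.Agent.W418 MvPolynomial NumberField
open AlgebraicGeometry CategoryTheory

theorem hasModule_of_good {O K F : Type} [CommRing O] [IsDomain O] [Field K] [Algebra O K]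
    [IsFractionRing O K] [Field F] [Algebra K F] [Algebra O F] [IsScalarTower O K F] {n : ℕ}
    (x : Fin (n + 2) → F) (hx0 : x 0 = 1)
    (hgen : IntermediateField.adjoin K (Set.range x) = ⊤) (h : GoodModule O x) :
    HasModule O F := by
  obtain ⟨D, M, hD, hMfg, hM0, hMG, hGM, hreg⟩ := h
  refine ⟨M, hMfg, hM0, ?_, hreg⟩
  intro f hf hf0
  have hOK : Function.Injective (algebraMap O K) := IsFractionRing.injective O K
  have hOF : Function.Injective (algebraMap O F) := by
    rw [IsScalarTower.algebraMap_eq O K F]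
    exact (algebraMap K F).injective.comp hOK
  let A : Subring F := (chart O M f).toSubring
  have hAmem : ∀ y, y ∈ A ↔ y ∈ chart O M f := fun y => Iff.rfl
  let L : Subfield F := Subfield.closure (A : Set F)
  have hAL : ∀ y ∈ chart O M f, y ∈ L := fun y hy => Subfield.subset_closure hy
  have hO : ∀ o : O, algebraMap O F o ∈ L := fun o => hAL _ (Subalgebra.algebraMap_mem _ _)
  have hK : ∀ k : K, algebraMap K F k ∈ L := by
    intro k
    obtain ⟨a, b, hb, rfl⟩ := IsFractionRing.div_surjective (A := O) k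
    rw [map_div₀, ← IsScalarTower.algebraMap_apply, ← IsScalarTower.algebraMap_apply]
    exact L.div_mem (hO a) (hO b)
  have hy : ∀ y ∈ Submodule.span O (Set.range x ^ D), y / f ∈ L := by
    intro y hy
    obtain ⟨s, hs, hsy⟩ := hGM y hy
    have h1 : (s • y) / f ∈ L := hAL _ (Algebra.subset_adjoin ⟨s • y, hsy, rfl⟩)
    have hsF : algebraMap O F s ≠ 0 := fun h => hs (hOF (by rw [h, map_zero]))
    have h2 : y / f = (s • y) / f / algebraMap O F s := by
      rw [Algebra.smul_def]
      field_simp
    rw [h2]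
    exact L.div_mem h1 (hO s)
  have hxm : ∀ i, x i ∈ Set.range x ^ D := by
    intro i
    obtain ⟨D', rfl⟩ : ∃ D', D = D' + 1 := ⟨D - 1, by omega⟩
    rw [pow_succ]
    have h1 : (1 : F) ∈ Set.range x ^ D' := by
      have h0 : (1 : F) ∈ Set.range x := ⟨0, hx0⟩
      have h1 : (1 : F) ^ D' ∈ Set.range x ^ D' := Set.pow_mem_pow h0
      rwa [one_pow] at h1
    have h2 := Set.mul_mem_mul h1 (Set.mem_range_self (f := x) i)
    rwa [one_mul] at h2
  have h1f : (1 : F) / f ∈ L := by
    have := hy _ (Submodule.subset_span (hxm 0))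
    rwa [hx0] at this
  have hxL : ∀ i, x i ∈ L := by
    intro i
    have h1 := hy _ (Submodule.subset_span (hxm i))
    have h2 : x i = (x i / f) / (1 / f) := by field_simp
    rw [h2]
    exact L.div_mem h1 h1f
  have htop : ∀ y : F, y ∈ L := by
    intro y
    let L' : IntermediateField K F := L.toIntermediateField hK
    have h1 : IntermediateField.adjoin K (Set.range x) ≤ L' := by
      rw [IntermediateField.adjoin_le_iff]
      rintro _ ⟨i, rfl⟩
      exact hxL i
    rw [hgen] at h1
    exact h1 (show y ∈ (⊤ : IntermediateField K F) from trivial)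
  intro y
  have h1 := htop y
  rw [Subfield.mem_closure_iff] at h1
  obtain ⟨b, hb, c, hc, rfl⟩ := h1
  rw [Subring.closure_eq] at hb hc
  by_cases hc0 : c = 0
  · refine ⟨0, Subalgebra.zero_mem _, 1, Subalgebra.one_mem _, one_ne_zero, ?_⟩
    rw [hc0, div_zero, zero_div]
  · exact ⟨b, hb, c, hc, hc0, rfl⟩

theorem od_birational {K : Type} [Field K] [NumberField K] {n : ℕ} (hn : 1 ≤ n)
    (G : MvPolynomial (Fin (n + 2)) K) (d : ℕ) (hd : 2 ≤ d) (hGd : G.IsHomogeneous d)
    (hsm : Smooth G) (hloc : LocGood (𝓞 K) G) {F : Type} [Field F]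
    (e : F ≃+* FractionRing (MvPolynomial {j : Fin (n + 2) // j ≠ 0} K ⧸
      Ideal.span {deh 0 G})) :
    ∃ (X' : Scheme.{0}) (_ : IsIntegral X') (g : X' ⟶ Spec (CommRingCat.of ℤ)),
      IsProper g ∧
      (∀ x : X',
        (((Module.finrank (IsLocalRing.ResidueField (X'.presheaf.stalk x))
            (IsLocalRing.CotangentSpace (X'.presheaf.stalk x)) : ℕ∞)) : WithBot ℕ∞)
          = ringKrullDim (X'.presheaf.stalk x)) ∧
      Nonempty (X'.functionField ≃+* F) := by
  have hirr := irreducible_of_smooth hn G d (by omega) hGd hsm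
  obtain ⟨alg, x, b, hx0, hrel, hgen, htb⟩ := funField G hirr d hGd
    (not_dvd_X G hirr.ne_zero d hd hGd) e
  let _ : Algebra (𝓞 K) F := ((algebraMap K F).comp (algebraMap (𝓞 K) K)).toAlgebra
  have hst : IsScalarTower (𝓞 K) K F := IsScalarTower.of_algebraMap_eq fun _ => rfl
  have hM : GoodModule (𝓞 K) x :=
    goodModule_of_locGood (K := K) G hirr.ne_zero d hd hGd hsm hloc x hx0 hrel hgen b htb
  have hOF : Function.Injective (algebraMap (𝓞 K) F) := by
    rw [IsScalarTower.algebraMap_eq (𝓞 K) K F]
    exact (algebraMap K F).injective.comp (IsFractionRing.injective (𝓞 K) K)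
  exact model_of_hasModule hOF (hasModule_of_good (K := K) x hx0 hgen hM)

end Pool.Agent.Q40.OD
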