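import Pool.Agent.Q40.OD.Fin4

/-! Regular proper models over a base ring `A`. -/

set_option autoImplicit false
set_option linter.unusedSectionVars false
set_option linter.unusedVariables false

open scoped Pointwise

namespace Pool.Agent.Q40.OD

open Pool.Agent.TH214.RM Pool.Agent.H918R2.Quad Pool.Agent.W418 MvPolynomial NumberField
open AlgebraicGeometry CategoryTheory

theorem exists_modelA {A O : Type} [CommRing A] [CommRing O] [IsDomain O] [Algebra A O]
    [Module.Finite A O]
    {F : Type} [Field F] [Algebra O F] (hinj : Function.Injective (algebraMap O F))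
    (h : HasModule O F) :
    ∃ (X' : Scheme.{0}) (_ : IsIntegral X') (g : X' ⟶ Spec (CommRingCat.of A)),
      IsProper g ∧
      (∀ x : X',
        (((Module.finrank (IsLocalRing.ResidueField (X'.presheaf.stalk x))
            (IsLocalRing.CotangentSpace (X'.presheaf.stalk x)) : ℕ∞)) : WithBot ℕ∞)
          = ringKrullDim (X'.presheaf.stalk x)) ∧
      Nonempty (X'.functionField ≃+* F) := by
  obtain ⟨M, hM, ⟨f, hf, hf0⟩, hgen, hreg⟩ := h
  have hint : IsIntegral (Pool.Agent.H968R2.Quad.model M) :=
    Pool.Agent.H968R2.Quad.model_integral M f hf hf0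
  refine ⟨Pool.Agent.H968R2.Quad.model M, hint,
    Pool.Agent.H968R2.Quad.modelMap M ≫ Spec.map (CommRingCat.ofHom (algebraMap A O)), ?_, ?_,
    Pool.Agent.H968R2.Quad.functionField_equiv M f hf hf0 ?_⟩
  · have h1 : IsProper (Pool.Agent.H968R2.Quad.modelMap M) :=
      Pool.Agent.H968R2.Quad.modelMap_isProper M hinj hM
    have h2 : IsFinite (Spec.map (CommRingCat.ofHom (algebraMap A O))) := by
      rw [IsFinite.SpecMap_iff]
      exact RingHom.finite_algebraMap.2 inferInstance
    have h3 : IsProper (Spec.map (CommRingCat.ofHom (algebraMap A O))) := inferInstance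
    exact MorphismProperty.comp_mem @IsProper _ _ h1 h3
  · intro x
    have h1 := Pool.Agent.H968R2.Quad.stalk_regular M hreg x
    have h2 := (IsRegularLocalRing.iff_finrank_cotangentSpace _).1 h1
    rw [← h2]
    rfl
  · intro y
    obtain ⟨a, ha, b, hb, hb0, hab⟩ := hgen f hf hf0 y
    exact ⟨a, ha, b, hb, hb0, hab⟩

theorem od_birationalA {A O K : Type} [CommRing A] [CommRing O] [IsDedekindDomain O]
    [Algebra A O] [Module.Finite A O] [Field K] [Algebra O K] [IsFractionRing O K] {n : ℕ}
    (hn : 1 ≤ n)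
    (G : MvPolynomial (Fin (n + 2)) K) (d : ℕ) (hd : 2 ≤ d) (hGd : G.IsHomogeneous d)
    (hsm : Smooth G) (hloc : LocGood O G) {F : Type} [Field F]
    (e : F ≃+* FractionRing (MvPolynomial {j : Fin (n + 2) // j ≠ 0} K ⧸
      Ideal.span {deh 0 G})) :
    ∃ (X' : Scheme.{0}) (_ : IsIntegral X') (g : X' ⟶ Spec (CommRingCat.of A)),
      IsProper g ∧
      (∀ x : X',
        (((Module.finrank (IsLocalRing.ResidueField (X'.presheaf.stalk x))
            (IsLocalRing.CotangentSpace (X'.presheaf.stalk x)) : ℕ∞)) : WithBot ℕ∞)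
          = ringKrullDim (X'.presheaf.stalk x)) ∧
      Nonempty (X'.functionField ≃+* F) := by
  have hirr := irreducible_of_smooth hn G d (by omega) hGd hsm
  obtain ⟨alg, x, b, hx0, hrel, hgen, htb⟩ := funField G hirr d hGd
    (not_dvd_X G hirr.ne_zero d hd hGd) e
  let _ : Algebra O F := ((algebraMap K F).comp (algebraMap O K)).toAlgebra
  have hst : IsScalarTower O K F := IsScalarTower.of_algebraMap_eq fun _ => rfl
  have hM : GoodModule O x :=
    goodModule_of_locGood (K := K) G hirr.ne_zero d hd hGd hsm hloc x hx0 hrel hgen b htb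
  have hOF : Function.Injective (algebraMap O F) := by
    rw [IsScalarTower.algebraMap_eq O K F]
    exact (algebraMap K F).injective.comp (IsFractionRing.injective O K)
  exact exists_modelA hOF (hasModule_of_good (K := K) x hx0 hgen hM)

/-- The localization of the ring of integers at the powers of `N` is finite over the localization
of the integers. -/
theorem exists_away (K : Type) [Field K] [NumberField K] (N : ℕ) (hN : N ≠ 0) :
    ∃ (O : Type) (_ : CommRing O) (_ : IsDedekindDomain O)
      (_ : Algebra (Localization.Away (N : ℤ)) O) (_ : Module.Finite (Localization.Away (N : ℤ)) O)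
      (_ : Algebra O K), IsFractionRing O K ∧ IsUnit (N : O) := by
  have hN0 : (N : 𝓞 K) ≠ 0 := Nat.cast_ne_zero.2 hN
  have hNK : (N : K) ≠ 0 := Nat.cast_ne_zero.2 hN
  let M : Submonoid (𝓞 K) := Submonoid.powers (N : 𝓞 K)
  have hM : M ≤ nonZeroDivisors (𝓞 K) := powers_le_nonZeroDivisors_of_noZeroDivisors hN0
  let O := Localization M
  have hOd : IsDomain O := IsLocalization.isDomain_localization hM
  have h1 : IsDedekindDomain O := IsLocalization.isDedekindDomain (𝓞 K) hM O
  let M' : Submonoid ℤ := Submonoid.powers (N : ℤ)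
  have hM' : Algebra.algebraMapSubmonoid (𝓞 K) M' = M := by
    ext z
    constructor
    · rintro ⟨w, ⟨k, rfl⟩, rfl⟩
      exact ⟨k, by simp⟩
    · rintro ⟨k, rfl⟩
      exact ⟨(N : ℤ) ^ k, ⟨k, rfl⟩, by simp⟩
  have hle : M' ≤ M.comap (algebraMap ℤ (𝓞 K)) := by
    rintro _ ⟨k, rfl⟩
    exact ⟨k, by simp⟩
  let φ : Localization.Away (N : ℤ) →+* O :=
    IsLocalization.map (M := M') (T := M) O (algebraMap ℤ (𝓞 K)) hle
  let _ : Algebra (Localization.Away (N : ℤ)) O := φ.toAlgebra
  have hst : @IsScalarTower ℤ (Localization.Away (N : ℤ)) O Algebra.toSMul Algebra.toSMul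
      Algebra.toSMul := by
    refine IsScalarTower.of_algebraMap_eq fun z => ?_
    change _ = φ (algebraMap ℤ (Localization.Away (N : ℤ)) z)
    rw [IsLocalization.map_eq]
    simp only [eq_intCast, map_intCast]
  have hloc : IsLocalization (Algebra.algebraMapSubmonoid (𝓞 K) M') O := by
    rw [hM']
    infer_instance
  have hfin : Module.Finite (Localization.Away (N : ℤ)) O := by
    exact Module.Finite.of_isLocalization ℤ (𝓞 K) (Rₚ := Localization.Away (N : ℤ)) (Sₚ := O) M'
  let _ : Algebra O K := (IsLocalization.lift (M := M) (S := O) (g := algebraMap (𝓞 K) K) (by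
    rintro ⟨_, k, rfl⟩
    simp only [map_pow, map_natCast]
    exact (pow_ne_zero k hNK).isUnit)).toAlgebra
  have hst2 : IsScalarTower (𝓞 K) O K := by
    refine IsScalarTower.of_algebraMap_eq fun z => ?_
    change _ = IsLocalization.lift _ (algebraMap (𝓞 K) O z)
    rw [IsLocalization.lift_eq]
  have hfr : IsFractionRing O K :=
    IsFractionRing.isFractionRing_of_isDomain_of_isLocalization M O K
  refine ⟨O, inferInstance, h1, inferInstance, hfin, inferInstance, hfr, ?_⟩
  have h2 := IsLocalization.map_units O (⟨(N : 𝓞 K), 1, pow_one _⟩ : M)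
  simpa using h2

end Pool.Agent.Q40.OD
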