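import Pool.Agent.Q40.OD.Fam2
import Pool.Agent.Q56.OD.EK6

/-! Project OD: the certificate OD-51. -/

set_option autoImplicit false

namespace Pool.Agent.Q40.OD

open Pool.Agent.TH214.RM Pool.Agent.Q56.OD MvPolynomial

/-- Points over the algebraic closure outside the zero set of `b`. -/
theorem exists_closed_point {K σ : Type} [Field K] [Finite σ] (I : Ideal (MvPolynomial σ K))
    (b : MvPolynomial σ K) (hb : b ∉ I.radical) :
    ∃ φ : MvPolynomial σ K →ₐ[K] AlgebraicClosure K, (∀ z ∈ I, φ z = 0) ∧ φ b ≠ 0 := by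
  have h1 : ∃ 𝔪 : Ideal (MvPolynomial σ K), 𝔪.IsMaximal ∧ I ≤ 𝔪 ∧ b ∉ 𝔪 := by
    by_contra hcon
    push Not at hcon
    apply hb
    rw [Ideal.radical_eq_jacobson]
    rw [Ideal.jacobson, Ideal.mem_sInf]
    rintro 𝔪 ⟨h1, h2⟩
    exact hcon 𝔪 h2 h1
  obtain ⟨𝔪, h𝔪, hI, hb𝔪⟩ := h1
  let _ : Field (MvPolynomial σ K ⧸ 𝔪) := Ideal.Quotient.field 𝔪
  have hfin : Module.Finite K (MvPolynomial σ K ⧸ 𝔪) :=
    finite_of_finite_type_of_isJacobsonRing K (MvPolynomial σ K ⧸ 𝔪)
  let ψ : (MvPolynomial σ K ⧸ 𝔪) →ₐ[K] AlgebraicClosure K := IsAlgClosed.lift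
  refine ⟨ψ.comp (Ideal.Quotient.mkₐ K 𝔪), fun z hz => ?_, fun h => hb𝔪 ?_⟩
  · rw [AlgHom.comp_apply, Ideal.Quotient.mkₐ_eq_mk, Ideal.Quotient.eq_zero_iff_mem.2 (hI hz),
      map_zero]
  · rw [AlgHom.comp_apply, Ideal.Quotient.mkₐ_eq_mk] at h
    rw [← Ideal.Quotient.eq_zero_iff_mem]
    exact (map_eq_zero_iff _ ψ.toRingHom.injective).1 h

theorem ndField_iff {κ : Type} [Field κ] {n d : ℕ} (c : Ix n d → κ) :
    NdField (form n d c) ↔ ∀ (s : Fin (n + 2)) (P : {j : Fin (n + 2) // j ≠ s} → κ),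
      ∃ z ∈ Zs s c P, z ≠ 0 := by
  constructor
  · intro h s P
    by_contra hcon
    push Not at hcon
    exact h s P (hcon _ (Set.mem_insert _ _))
      (fun b => hcon _ (Set.mem_insert_of_mem _ (Set.mem_insert_of_mem _ ⟨b, rfl⟩)))
      (hcon _ (Set.mem_insert_of_mem _ (Set.mem_insert _ _)))
  · intro h s P h0 h1 h2
    obtain ⟨z, hz, hz0⟩ := h s P
    rcases hz with rfl | rfl | ⟨b, rfl⟩
    · exact hz0 h0
    · exact hz0 h2
    · exact hz0 (h1 b)

theorem pg1 : S_PG1 := by
  classical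
  intro R K _ _ _ _ _ m n d c b hnd
  have hRK : Function.Injective (algebraMap R K) := IsFractionRing.injective R K
  have key : ∀ s : Fin (n + 2), ∃ (a : R) (k : ℕ), a ≠ 0 ∧
      C a * rename Sum.inl b ^ k ∈ Ideal.span (Zs s
        (fun α => rename Sum.inl (c α)) (fun j => X (Sum.inr j)) :
        Set (MvPolynomial (Fin m ⊕ {j : Fin (n + 2) // j ≠ s}) R)) := by
    intro s
    let A := MvPolynomial (Fin m ⊕ {j : Fin (n + 2) // j ≠ s}) R
    let AK := MvPolynomial (Fin m ⊕ {j : Fin (n + 2) // j ≠ s}) K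
    let Z : Set A := Zs s (fun α => rename Sum.inl (c α)) (fun j => X (Sum.inr j))
    have hrad : (map (algebraMap R K) (rename Sum.inl b) : AK) ∈
        (Ideal.span (map (algebraMap R K) '' Z)).radical := by
      by_contra hcon
      obtain ⟨φ, hφ0, hφb⟩ := exists_closed_point _ _ hcon
      let v : Fin m → AlgebraicClosure K := fun i => φ (X (Sum.inl i))
      have hφr : ∀ P : MvPolynomial (Fin m) R,
          φ (map (algebraMap R K) (rename Sum.inl P)) = aeval v P := by
        intro P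
        induction P using MvPolynomial.induction_on with
        | C a =>
          rw [rename_C, map_C, aeval_C, ← algebraMap_eq, AlgHom.commutes,
            ← IsScalarTower.algebraMap_apply R K (AlgebraicClosure K)]
        | add p q hp hq => rw [map_add, map_add, map_add, map_add, hp, hq]
        | mul_X p i hp =>
          rw [map_mul, map_mul, map_mul, map_mul, hp, rename_X, map_X, aeval_X]
      obtain ⟨z, hz, hz0⟩ := (ndField_iff _).1 (hnd v (by rw [← hφr]; exact hφb)) s
        (fun j => φ (X (Sum.inr j)))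
      apply hz0
      have himg := image_Zs ((φ : AK →+* AlgebraicClosure K).comp (map (algebraMap R K))) s
        (fun α => rename Sum.inl (c α)) (fun j => (X (Sum.inr j) : A))
      have h2 : z ∈ ((φ : AK →+* AlgebraicClosure K).comp (map (algebraMap R K))) '' Z := by
        rw [himg]
        have h3 : (fun α => ((φ : AK →+* AlgebraicClosure K).comp (map (algebraMap R K)))
            (rename Sum.inl (c α))) = fun α => aeval v (c α) := funext fun α => hφr (c α)
        have h4 : (fun j => ((φ : AK →+* AlgebraicClosure K).comp (map (algebraMap R K)))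
            (X (Sum.inr j) : A)) = fun j => φ (X (Sum.inr j)) := by
          funext j
          change φ (map (algebraMap R K) (X (Sum.inr j))) = _
          rw [map_X]
        rw [h3, h4]
        exact hz
      obtain ⟨y, hy, rfl⟩ := h2
      exact hφ0 _ (Ideal.subset_span ⟨y, hy, rfl⟩)
    obtain ⟨k, hk⟩ := hrad
    rw [← map_pow] at hk
    obtain ⟨a, ha, y, hy, hya⟩ := clear_span (R := K) (nonZeroDivisors R) _ _ hk
    rw [← map_C, ← map_mul] at hya
    have h2 := map_injective _ hRK hya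
    rw [h2] at hy
    exact ⟨a, k, nonZeroDivisors.ne_zero ha, hy⟩
  choose a k ha hk using key
  refine ⟨∏ s, a s, Finset.prod_ne_zero_iff.2 fun s _ => ha s, ?_⟩
  intro κ _ _ hN v hb
  rw [ndField_iff]
  intro s P
  by_contra hcon
  push Not at hcon
  have hNs : algebraMap R κ (a s) ≠ 0 := by
    intro h
    apply hN
    rw [map_prod]
    exact Finset.prod_eq_zero (Finset.mem_univ s) h
  let φ : MvPolynomial (Fin m ⊕ {j : Fin (n + 2) // j ≠ s}) R →ₐ[R] κ := aeval (Sum.elim v P)
  have himg := image_Zs (φ : _ →+* κ) s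
    (fun α => rename Sum.inl (c α)) (fun j => (X (Sum.inr j) : MvPolynomial _ R))
  have hφr : ∀ Q : MvPolynomial (Fin m) R, φ (rename Sum.inl Q) = aeval v Q := by
    intro Q
    change aeval (Sum.elim v P) (rename Sum.inl Q) = _
    rw [aeval_rename]
    rfl
  have h1 : ∀ z ∈ Zs s (fun α => rename Sum.inl (c α)) (fun j => (X (Sum.inr j) :
      MvPolynomial (Fin m ⊕ {j : Fin (n + 2) // j ≠ s}) R)), φ z = 0 := by
    intro z hz
    apply hcon
    have h2 : φ z ∈ (φ : _ →+* κ) '' Zs s (fun α => rename Sum.inl (c α))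
        (fun j => (X (Sum.inr j) : MvPolynomial (Fin m ⊕ {j : Fin (n + 2) // j ≠ s}) R)) :=
      ⟨z, hz, rfl⟩
    rw [himg] at h2
    have h3 : (fun α => (φ : MvPolynomial (Fin m ⊕ {j : Fin (n + 2) // j ≠ s}) R →+* κ)
        (rename Sum.inl (c α))) = fun α => aeval v (c α) := funext fun α => hφr (c α)
    have h4 : (fun j => (φ : MvPolynomial (Fin m ⊕ {j : Fin (n + 2) // j ≠ s}) R →+* κ)
        (X (Sum.inr j))) = P := by
      funext j
      change aeval (Sum.elim v P) (X (Sum.inr j)) = _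
      rw [aeval_X]
      rfl
    rw [h3, h4] at h2
    exact h2
  have h2 : φ (C (a s) * rename Sum.inl b ^ k s) = 0 := by
    have h3 : Ideal.span (Zs s (fun α => rename Sum.inl (c α)) (fun j => (X (Sum.inr j) :
      MvPolynomial (Fin m ⊕ {j : Fin (n + 2) // j ≠ s}) R))) ≤ RingHom.ker (φ : _ →+* κ) := by
      rw [Ideal.span_le]
      exact fun z hz => h1 z hz
    exact h3 (hk s)
  rw [map_mul, map_pow, hφr, ← algebraMap_eq, AlgHom.commutes] at h2
  rcases mul_eq_zero.1 h2 with h | h
  · exact hNs h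
  · exact pow_ne_zero _ hb h

end Pool.Agent.Q40.OD
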