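import Pool.Agent.Q40.OD.ModelA
import Pool.Agent.Q40.OD.Base
import Pool.Agent.Q40.OD.Count
import Pool.Agent.Q40.OD.All2

/-! Project OD: the density theorems for forms. -/

set_option autoImplicit false
set_option linter.unusedSectionVars false
set_option linter.unusedVariables false

namespace Pool.Agent.Q40.OD

open Pool.Agent.TH214.RM MvPolynomial

/-- The forms which are smooth over `ℚ` with nondegenerate reductions outside `N`. -/
def Good (N : ℕ) {n : ℕ} (f : MvPolynomial (Fin (n + 2)) ℤ) : Prop :=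
  Smooth (map (Int.castRingHom ℚ) f) ∧
    ∀ p : ℕ, p.Prime → ¬ p ∣ N → Nondeg (Ideal.span {(p : ℤ)}) f

theorem card_mono {n d H : ℕ} (P P' : MvPolynomial (Fin (n + 2)) ℤ → Prop)
    (h : ∀ f, f.IsHomogeneous d → P f → P' f) :
    Nat.card {f : MvPolynomial (Fin (n + 2)) ℤ // f.IsHomogeneous d ∧
      (∀ m, |coeff m f| ≤ H) ∧ P f} ≤
    Nat.card {f : MvPolynomial (Fin (n + 2)) ℤ // f.IsHomogeneous d ∧
      (∀ m, |coeff m f| ≤ H) ∧ P' f} := by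
  have hfin : Finite {f : MvPolynomial (Fin (n + 2)) ℤ // f.IsHomogeneous d ∧
      (∀ m, |coeff m f| ≤ H)} := by
    apply Nat.finite_of_card_ne_zero
    rw [card_forms_all]
    positivity
  have hfin2 : Finite {f : MvPolynomial (Fin (n + 2)) ℤ // f.IsHomogeneous d ∧
      (∀ m, |coeff m f| ≤ H) ∧ P' f} :=
    Finite.of_injective (fun f => (⟨f.1, f.2.1, f.2.2.1⟩ :
      {f : MvPolynomial (Fin (n + 2)) ℤ // f.IsHomogeneous d ∧ (∀ m, |coeff m f| ≤ H)}))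
      (by
        rintro ⟨f, _⟩ ⟨g, _⟩ h
        have h1 : f = g := by injection h
        exact Subtype.ext h1)
  refine Nat.card_le_card_of_injective (fun f => ⟨f.1, f.2.1, f.2.2.1, h f.1 f.2.1 f.2.2.2⟩) ?_
  rintro ⟨f, _⟩ ⟨g, _⟩ h
  have h1 : f = g := by injection h
  exact Subtype.ext h1

theorem density_pos (n d : ℕ) (hd : 3 ≤ d) (P : MvPolynomial (Fin (n + 2)) ℤ → Prop)
    (hP : ∀ f, f.IsHomogeneous d → Good 1 f → P f) :
    ∃ δ : ℝ, 0 < δ ∧ ∃ H₀ : ℕ, ∀ H : ℕ, H₀ ≤ H →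
      δ * (Nat.card {f : MvPolynomial (Fin (n + 2)) ℤ // f.IsHomogeneous d ∧
        ∀ m, |coeff m f| ≤ H} : ℝ) ≤
      (Nat.card {f : MvPolynomial (Fin (n + 2)) ℤ // f.IsHomogeneous d ∧
        (∀ m, |coeff m f| ≤ H) ∧ P f} : ℝ) := by
  obtain ⟨δ, hδ, H₀, h⟩ := ek9 n d hd
  refine ⟨δ, hδ, H₀, fun H hH => ?_⟩
  have h1 := h H hH
  rw [card_forms_all]
  push_cast
  refine h1.trans ?_
  rw [Nat.cast_le]
  rw [← card_forms H (fun f => Smooth (map (Int.castRingHom ℚ) f) ∧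
    ∀ p : ℕ, p.Prime → Nondeg (Ideal.span {(p : ℤ)}) f)]
  exact card_mono _ _ fun f hf h => hP f hf ⟨h.1, fun p hp _ => h.2 p hp⟩

theorem density_one (n d : ℕ) (hd : 2 ≤ d) (P : ℕ → MvPolynomial (Fin (n + 2)) ℤ → Prop)
    (hP : ∀ N f, N ≠ 0 → f.IsHomogeneous d → Good N f → P N f) (ε : ℝ) (hε : 0 < ε) :
    ∃ N : ℕ, N ≠ 0 ∧ ∃ H₀ : ℕ, ∀ H : ℕ, H₀ ≤ H →
      (Nat.card {f : MvPolynomial (Fin (n + 2)) ℤ // f.IsHomogeneous d ∧
        (∀ m, |coeff m f| ≤ H) ∧ ¬ P N f} : ℝ) ≤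
      ε * (Nat.card {f : MvPolynomial (Fin (n + 2)) ℤ // f.IsHomogeneous d ∧
        ∀ m, |coeff m f| ≤ H} : ℝ) := by
  obtain ⟨M, H₀, h⟩ := ek10 n d hd ε hε
  refine ⟨M.factorial, Nat.factorial_ne_zero M, H₀, fun H hH => ?_⟩
  have h1 := h H hH
  rw [card_forms_all]
  push_cast
  refine le_trans ?_ h1
  rw [Nat.cast_le]
  rw [← card_forms H (fun f => ¬ (Smooth (map (Int.castRingHom ℚ) f) ∧
    ∀ p : ℕ, p.Prime → M < p → Nondeg (Ideal.span {(p : ℤ)}) f))]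
  refine card_mono _ _ fun f hf h h2 => h (hP _ f (Nat.factorial_ne_zero M) hf ⟨h2.1, ?_⟩)
  intro p hp hpM
  refine h2.2 p hp ?_
  by_contra hcon
  push Not at hcon
  exact hpM ((Nat.Prime.dvd_factorial hp).2 hcon)

end Pool.Agent.Q40.OD
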