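import Pool.Agent.Q272.OD.EK9
import Pool.Agent.Q40.OD.All2
import Pool.Agent.Q40.OD.Count

/-! Project OD, part III: the sieve for families with parameters in the integers. -/

set_option autoImplicit false
set_option linter.unusedSectionVars false
set_option linter.unusedVariables false

namespace Pool.Agent.Q40.OD

open Pool.Agent.Q272.OD MvPolynomial

/-- Chinese remainder theorem modulo the squares of the primes up to `M`. -/
theorem crt_sq (M : ℕ) (a : ℕ → ℤ) :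
    ∃ b : ℤ, ∀ p : ℕ, p.Prime → p ≤ M → ((p : ℤ) ^ 2) ∣ b - a p := by
  classical
  let t : Finset ℕ := (Finset.range (M + 1)).filter Nat.Prime
  have ht : ∀ i ∈ t, (fun i : ℕ => i ^ 2) i ≠ 0 := by
    intro i hi
    exact pow_ne_zero _ (Finset.mem_filter.1 hi).2.ne_zero
  have hco : Set.Pairwise (t : Set ℕ) (Function.onFun Nat.Coprime (fun i : ℕ => i ^ 2)) := by
    intro i hi j hj hij
    exact Nat.Coprime.pow _ _
      ((Nat.coprime_primes (Finset.mem_filter.1 hi).2 (Finset.mem_filter.1 hj).2).2 hij)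
  obtain ⟨k, hk⟩ := Nat.chineseRemainderOfFinset
    (fun p => (a p % ((p : ℤ) ^ 2)).toNat) (fun i => i ^ 2) t ht hco
  refine ⟨k, fun p hp hpM => ?_⟩
  have h1 := hk p (Finset.mem_filter.2 ⟨Finset.mem_range.2 (by omega), hp⟩)
  have h2 : ((p ^ 2 : ℕ) : ℤ) ∣ (k : ℤ) - ((a p % ((p : ℤ) ^ 2)).toNat : ℤ) :=
    (Nat.modEq_iff_dvd.1 h1.symm)
  have hp0 : ((p : ℤ) ^ 2) ≠ 0 := pow_ne_zero _ (by exact_mod_cast hp.ne_zero)
  rw [Int.toNat_of_nonneg (Int.emod_nonneg _ hp0)] at h2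
  push_cast at h2
  have h3 : ((p : ℤ) ^ 2) ∣ (a p % ((p : ℤ) ^ 2)) - a p := by
    have h4 := Int.emod_add_mul_ediv (a p) ((p : ℤ) ^ 2)
    refine ⟨-(a p / ((p : ℤ) ^ 2)), ?_⟩
    linarith
  have h4 := dvd_add h2 h3
  have h5 : (k : ℤ) - a p % ((p : ℤ) ^ 2) + (a p % ((p : ℤ) ^ 2) - a p) = k - a p := by ring
  rwa [h5] at h4

theorem real_est (k : ℕ) (Q H : ℝ) (hQ : 1 ≤ Q) (hH : Q * (4 * k + 1) ≤ H) :
    3 / 4 * (2 * H / Q + 1 : ℝ) ^ k ≤ ((2 * H + 1 : ℝ) / Q - 1) ^ k := by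
  have hQR : (0 : ℝ) < Q := by linarith
  have hk : (0 : ℝ) ≤ k := Nat.cast_nonneg k
  have hH0 : 0 ≤ H := le_trans (by positivity) hH
  have hx : (0 : ℝ) < 2 * H / Q + 1 := by positivity
  have hB : (2 * H / Q + 1 : ℝ) * (1 - 2 / (2 * H / Q + 1)) ≤ (2 * H + 1 : ℝ) / Q - 1 := by
    rw [mul_sub, mul_one, mul_div_cancel₀ _ hx.ne']
    have : (2 * H : ℝ) / Q ≤ (2 * H + 1) / Q := by gcongr; linarith
    linarith
  have h6 : (4 * k + 1 : ℝ) ≤ H / Q := by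
    rw [le_div_iff₀ hQR]
    linarith
  have h7 : (2 * H : ℝ) / Q = 2 * (H / Q) := by ring
  have hbig : (8 * k : ℝ) ≤ 2 * H / Q + 1 := by
    rw [h7]
    linarith
  have h2x : (2 : ℝ) ≤ 2 * H / Q + 1 := by
    rw [h7]
    linarith
  have hnn : (0 : ℝ) ≤ 1 - 2 / (2 * H / Q + 1) := by
    rw [sub_nonneg, div_le_one hx]
    exact h2x
  have hbern : (3 / 4 : ℝ) ≤ (1 - 2 / (2 * H / Q + 1)) ^ k := by
    have h9 := one_add_mul_le_pow (a := -(2 / (2 * H / Q + 1 : ℝ))) (by linarith) k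
    have h10 : (k : ℝ) * (2 / (2 * H / Q + 1)) ≤ 1 / 4 := by
      rw [mul_div_assoc', div_le_iff₀ hx]
      linarith
    have h11 : (1 + -(2 / (2 * H / Q + 1 : ℝ))) = 1 - 2 / (2 * H / Q + 1) := by ring
    rw [h11] at h9
    linarith
  calc 3 / 4 * (2 * H / Q + 1 : ℝ) ^ k ≤ (1 - 2 / (2 * H / Q + 1)) ^ k *
        (2 * H / Q + 1 : ℝ) ^ k := by gcongr
    _ = ((2 * H / Q + 1 : ℝ) * (1 - 2 / (2 * H / Q + 1))) ^ k := by rw [mul_pow]; ring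
    _ ≤ _ := by
        apply pow_le_pow_left₀ (mul_nonneg hx.le hnn) hB

/-- The sieve: parameters with prescribed residues modulo the squares of the small primes, such that
for no large prime all polynomials of the coprime family `S` vanish modulo the prime, and which are
not zeros of `Δ`, have positive density. -/
theorem sieve_pos {ι : Type} [Fintype ι] [Nonempty ι] (S : Finset (MvPolynomial ι ℤ))
    (hS : Cop (S : Set (MvPolynomial ι ℤ))) (Δ : MvPolynomial ι ℤ) (hΔ : Δ ≠ 0) (N₀ : ℕ)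
    (b : ℕ → ι → ℤ) (Good : (ι → ℤ) → Prop)
    (hG : ∀ M : ℕ, N₀ ≤ M → ∀ t : ι → ℤ,
      (∀ p : ℕ, p.Prime → p ≤ M → ∀ i, ((p : ℤ) ^ 2) ∣ t i - b p i) → eval t Δ ≠ 0 →
      (∀ p : ℕ, p.Prime → M < p → ∃ G ∈ S, ¬ (p : ℤ) ∣ eval t G) → Good t) :
    ∃ δ : ℝ, 0 < δ ∧ ∃ H₀ : ℕ, ∀ H : ℕ, H₀ ≤ H →
      δ * (Nat.card {t : ι → ℤ // ∀ i, |t i| ≤ H} : ℝ) ≤
        (Nat.card {t : ι → ℤ // (∀ i, |t i| ≤ H) ∧ Good t} : ℝ) := by
  classical
  obtain ⟨C₀, hC₀, hEk⟩ := ek3_gen ek3 S hS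
  let M : ℕ := max N₀ (8 * C₀)
  have hMN : N₀ ≤ M := le_max_left _ _
  have hMC : 8 * C₀ ≤ M := le_max_right _ _
  let Q : ℕ := primorial M ^ 2
  have hQ1 : 1 ≤ Q := Nat.one_le_pow _ _ (primorial_pos M)
  have hQdvd : ∀ p : ℕ, p.Prime → p ≤ M → p ^ 2 ∣ Q := by
    intro p hp hpM
    exact pow_dvd_pow_of_dvd ((hp.dvd_primorial_iff).2 hpM) 2
  have hQndvd : ∀ p : ℕ, p.Prime → M < p → ¬ p ∣ Q := by
    intro p hp hpM h
    have := (hp.dvd_primorial_iff).1 (hp.dvd_of_dvd_pow h)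
    omega
  choose c hc using fun i : ι => crt_sq M (fun p => b p i)
  obtain ⟨H₀, hH₀⟩ := hEk M Q (by omega) hQ1
  let k := Fintype.card ι
  have hk1 : 1 ≤ k := Fintype.card_pos
  have hQR : (0 : ℝ) < Q := by exact_mod_cast hQ1
  have hQR1 : (1 : ℝ) ≤ Q := by exact_mod_cast hQ1
  refine ⟨1 / (4 * Q ^ k), by positivity, max H₀ (max (Q * (4 * k + 1))
    (4 * Q ^ k * Δ.totalDegree)), fun H hH => ?_⟩
  have hHH₀ : H₀ ≤ H := le_trans (le_max_left _ _) hH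
  have hHQ : Q * (4 * k + 1) ≤ H := le_trans (le_trans (le_max_left _ _) (le_max_right _ _)) hH
  have hHD : 4 * Q ^ k * Δ.totalDegree ≤ H :=
    le_trans (le_trans (le_max_right _ _) (le_max_right _ _)) hH
  have h1 := hH₀ H hHH₀ c
  have hQH : Q ≤ 2 * H + 1 := by nlinarith
  have h2 := card_box_class H Q hQ1 hQH c
  have h3 := ek1_gen ek1 Δ hΔ H
  have h4 := card_compl H (fun t : ι → ℤ => ∀ i, (Q : ℤ) ∣ t i - c i)
    (fun t => ∃ p : ℕ, p.Prime ∧ M < p ∧ ¬ p ∣ Q ∧ ∀ G ∈ S, (p : ℤ) ∣ eval t G)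
  have h4' := card_compl H (fun t : ι → ℤ => (∀ i, (Q : ℤ) ∣ t i - c i) ∧
      ¬ ∃ p : ℕ, p.Prime ∧ M < p ∧ ¬ p ∣ Q ∧ ∀ G ∈ S, (p : ℤ) ∣ eval t G)
    (fun t => eval t Δ = 0)
  have h4'' := card_mono H (fun t : ι → ℤ => ((∀ i, (Q : ℤ) ∣ t i - c i) ∧
      ¬ ∃ p : ℕ, p.Prime ∧ M < p ∧ ¬ p ∣ Q ∧ ∀ G ∈ S, (p : ℤ) ∣ eval t G) ∧ eval t Δ = 0)
    (fun t => eval t Δ = 0) (fun t _ ht => ht.2)
  have h5 := card_mono H (fun t : ι → ℤ => ((∀ i, (Q : ℤ) ∣ t i - c i) ∧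
      ¬ ∃ p : ℕ, p.Prime ∧ M < p ∧ ¬ p ∣ Q ∧ ∀ G ∈ S, (p : ℤ) ∣ eval t G) ∧ ¬ eval t Δ = 0)
    Good (by
      rintro t ht ⟨⟨htQ, htE⟩, htΔ⟩
      refine hG M hMN t ?_ htΔ ?_
      · intro p hp hpM i
        have h6 : ((p : ℤ) ^ 2) ∣ t i - c i :=
          dvd_trans (by exact_mod_cast hQdvd p hp hpM) (htQ i)
        have h7 := dvd_add h6 (hc i p hp hpM)
        have h8 : t i - c i + (c i - b p i) = t i - b p i := by ring
        rwa [h8] at h7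
      · intro p hp hpM
        by_contra hcon
        push Not at hcon
        exact htE ⟨p, hp, hpM, hQndvd p hp hpM, hcon⟩)
  refine le_trans ?_ h5
  rw [← h4', ← h4, card_box]
  have hMR : (0 : ℝ) < M := by
    have : 0 < M := by omega
    exact_mod_cast this
  have hCM : (C₀ : ℝ) / M ≤ 1 / 8 := by
    rw [div_le_div_iff₀ hMR (by norm_num)]
    have : (8 * C₀ : ℝ) ≤ M := by exact_mod_cast hMC
    linarith
  have hHR : (Q : ℝ) * (4 * k + 1) ≤ H := by exact_mod_cast hHQ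
  have hx : (0 : ℝ) < 2 * H / Q + 1 := by positivity
  have hE : (Nat.card {t : ι → ℤ // (∀ i, |t i| ≤ H) ∧ ((∀ i, (Q : ℤ) ∣ t i - c i) ∧
      ∃ p : ℕ, p.Prime ∧ M < p ∧ ¬ p ∣ Q ∧ ∀ G ∈ S, (p : ℤ) ∣ eval t G)} : ℝ) ≤
      1 / 8 * (2 * H / Q + 1) ^ k :=
    le_trans h1 (mul_le_mul_of_nonneg_right hCM (by positivity))
  have hA := real_est k Q H hQR1 hHR
  have hpow : ((2 * H + 1 : ℝ) / Q) ^ k ≤ (2 * H / Q + 1 : ℝ) ^ k := by
    apply pow_le_pow_left₀ (by positivity)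
    rw [add_div]
    have : (1 : ℝ) / Q ≤ 1 := by
      rw [div_le_one hQR]
      exact hQR1
    linarith
  rw [div_pow] at hpow
  have hD : (Δ.totalDegree : ℝ) * (2 * H + 1) ^ (k - 1) ≤ 1 / 8 * (2 * H / Q + 1 : ℝ) ^ k := by
    have h6 : (4 * (Q : ℝ) ^ k * Δ.totalDegree) ≤ H := by exact_mod_cast hHD
    have h7 : (Δ.totalDegree : ℝ) ≤ 1 / 8 * ((2 * H + 1) / Q ^ k) := by
      rw [mul_div_assoc', le_div_iff₀ (by positivity)]
      nlinarith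
    calc (Δ.totalDegree : ℝ) * (2 * H + 1) ^ (k - 1) ≤
          (1 / 8 * ((2 * H + 1) / Q ^ k)) * (2 * H + 1) ^ (k - 1) := by gcongr
      _ = 1 / 8 * ((2 * H + 1) ^ k / Q ^ k) := by
          have h8 : (2 * (H : ℝ) + 1) ^ k = (2 * H + 1) * (2 * H + 1) ^ (k - 1) := by
            rw [← pow_succ']
            congr 1
            omega
          rw [h8]
          ring
      _ ≤ _ := by gcongr
  have hfin : 1 / (4 * (Q : ℝ) ^ k) * (2 * H + 1) ^ k ≤ 1 / 4 * (2 * H / Q + 1 : ℝ) ^ k := by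
    calc 1 / (4 * (Q : ℝ) ^ k) * (2 * H + 1) ^ k = 1 / 4 * ((2 * H + 1) ^ k / Q ^ k) := by
          field_simp
      _ ≤ _ := by gcongr
  have h2' : ((2 * H + 1 : ℝ) / Q - 1) ^ k ≤
      (Nat.card {t : ι → ℤ // (∀ i, |t i| ≤ H) ∧ ∀ i, (Q : ℤ) ∣ t i - c i} : ℝ) := h2
  have hcast : (((2 * H + 1) ^ Fintype.card ι : ℕ) : ℝ) = (2 * H + 1) ^ k := by push_cast; rfl
  rw [hcast]
  have h4''' := le_trans h4'' (le_trans h3 hD)
  linarith

end Pool.Agent.Q40.OD
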