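import Pool.Agent.Q40.OD.Defs

/-! Project OD, part 1: the local theory. Lemma jobs with proofs. -/

set_option autoImplicit false
set_option linter.unusedSectionVars false
set_option linter.unusedVariables false

open scoped Pointwise

namespace Pool.Agent.Q40.OD

open Pool.Agent.H918R2.Quad Pool.Agent.TH214.RM Pool.Agent.H945R2.E Pool.Agent.W418 MvPolynomial

/-- OD-1. Jacobian criterion at a point over a field (any residue field).
PROOF. `B := Localization.AtPrime Q` is a regular local ring (`MvPolynomial σ κ` is an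
`IsRegularRing`), its dimension is `Q.height`. Claim: the images of the `D a` in the cotangent space
of `B` are linearly independent over the residue field. Otherwise, clearing denominators, there are
`β : σ → MvPolynomial σ κ`, not all in `Q`, with `c * ∑ β a * D a ∈ Q ^ 2` for some `c ∉ Q`
(replace `β` by `c β`). Apply `pderiv b`: the derivative of an element of `Q ^ 2` lies in `Q`,
so `∑ β a * pderiv b (D a) ∈ Q` for all `b` (the other terms contain `D a ∈ Q`); multiply by the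
adjugate of the Jacobian matrix: `det * β a ∈ Q`, so all `β a ∈ Q`, contradiction.
So `card σ ≤ finrank (CotangentSpace B) = ringKrullDim B = Q.height`. On the other hand
`Q.height ≤ ringKrullDim (MvPolynomial σ κ) = card σ` (`MvPolynomial.ringKrullDim`...), so the images
of the `D a` are a basis of the cotangent space and by Nakayama they generate the maximal ideal of
`B`; clear denominators. -/
def S_OD1 : Prop := ∀ {κ σ : Type} [Field κ] [Fintype σ] [DecidableEq σ] (D : σ → MvPolynomial σ κ)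
    (Q : Ideal (MvPolynomial σ κ)) [Q.IsPrime] (hD : ∀ a, D a ∈ Q)
    (hJ : (Matrix.of fun a b => pderiv a (D b)).det ∉ Q),
    (∀ x ∈ Q, ∃ c, c ∉ Q ∧ c * x ∈ Ideal.span (Set.range D)) ∧
      ((Fintype.card σ : ℕ) : ℕ∞) ≤ Q.height

/-- OD-2. The same over a discrete valuation ring.
PROOF. Let `κ = R / (π)` (residue field) and `θ : R[σ] → κ[σ]`, surjective with kernel `(C π)`,
which is contained in `Q`. Apply OD-1 to `θ ∘ D` and `Q' = Q.map θ` (prime,
`Q'.comap θ = Q`; `det` of the reduced Jacobian is `θ det ∉ Q'`). For `x ∈ Q` we get `c' ∉ Q'` with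
`c' θ x ∈ span (θ D)`; lift `c'` to `c ∉ Q`: `c x - ∑ y_a D_a ∈ ker θ = (C π)`. Height:
`height_comap_ge θ` (Pool.Agent.H918R2.Quad.Reg2) gives
`(ker θ).height + card σ ≤ Q.height`, and `(ker θ).height ≥ 1` since `ker θ` is a nonzero prime of a
domain. Maximality: `ringKrullDim (MvPolynomial σ R) = card σ + 1` (Mathlib:
`MvPolynomial.ringKrullDim_of_isNoetherianRing` or similar, `ringKrullDim R = 1`); a prime of
height `≥ card σ + 1` has no proper prime overideal. -/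
def S_OD2 : Prop := ∀ {R σ : Type} [CommRing R] [IsDomain R] [IsDiscreteValuationRing R] [Fintype σ]
    [DecidableEq σ] (π : R) (hπ : Irreducible π) (D : σ → MvPolynomial σ R)
    (Q : Ideal (MvPolynomial σ R)) [Q.IsPrime] (hQ : C π ∈ Q) (hD : ∀ a, D a ∈ Q)
    (hJ : (Matrix.of fun a b => pderiv a (D b)).det ∉ Q),
    (∀ x ∈ Q, ∃ c, c ∉ Q ∧ c * x ∈ Ideal.span (insert (C π) (Set.range D))) ∧ Q.IsMaximal ∧
      ((Fintype.card σ + 1 : ℕ) : ℕ∞) ≤ Q.height

/-- OD-3. Normal form at a nondegenerate point. It may use OD-2 (`od2`).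
PROOF. Write `D_a = pderiv a g`, `I = (D_a)`, `H = Hess g`, `h = H.det ∉ Q`; `pderiv a (D b) = H a b`
and `H` is symmetric. All the following in the localization `B` of `R[σ]` at `Q` (or with
denominators `c ∉ Q`). By `od2`, `Q B = (π) + I B` and the height of `Q` is at least `card σ + 1`.
(1) `π ^ j ∉ I B` for all `j`: otherwise the maximal ideal of `B` would be a minimal prime over
`I B`, which is generated by `card σ` elements, and by Krull's height theorem the height of `Q`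
would be at most `card σ`.
(2) There is a largest `v` with `g ∈ I B + (π ^ v)`; `1 ≤ v` since `g ∈ Q B = I B + (π)`; `v ≤ N`:
if `g ∈ I B + (π ^ (N+1))` then by `hN`, `π ^ N ∈ (g) + I B ⊆ I B + (π ^ (N+1))`, so
`π ^ N (1 - π z) ∈ I B`, `1 - π z` is a unit, contradiction to (1).
Clear denominators: `c g = u π ^ v + ∑ l_a D_a` with `c ∉ Q`; `u ∉ Q`, since otherwise
`u ∈ I B + (π)` and `g ∈ I B + (π ^ (v+1))`.
(3) Apply `pderiv b` (`pderiv b (C π) = 0`): `(pderiv b c) g + c D_b = (pderiv b u) π ^ v +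
∑ (pderiv b l_a) D_a + ∑ l_a H b a`. As `g ∈ I B + (π ^ v)`, we get
`∑_a H b a * l_a ∈ I B + (π ^ v)` for all `b`, and by the adjugate `h l_a ∈ I B + (π ^ v)`; clear
denominators: `c' h l_a = m_a π ^ v + ∑_b q_ab D_b`, `c' ∉ Q`. Multiply the equation of (2) by
`c' h`: `(c' h c) g = (c' h u + ∑ m_a D_a) π ^ v + ∑ q_ab D_a D_b`, with
`c' h u + ∑ m_a D_a ∉ Q` as `D_a ∈ Q`.
(4) Rename: `c g = u π ^ v + ∑ q_ab D_a D_b`. Apply `pderiv e` and `pderiv f` and reduce modulo `Q`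
(`g, D_a, π ∈ Q`, `v ≥ 1`): `c H_ef ≡ ∑ q_ab (H_ae H_bf + H_af H_be)`, that is
`c H ≡ H (q + q^T) H` modulo `Q` (H symmetric). Determinants: `c ^ card σ * h ≡ h ^ 2 det(q + q^T)`
modulo `Q`, so `det (q + q^T) ∉ Q`. -/
def S_OD3 : Prop := ∀ {R σ : Type} [CommRing R] [IsDomain R] [IsDiscreteValuationRing R] [Fintype σ]
    [DecidableEq σ] (π : R) (hπ : Irreducible π) (g : MvPolynomial σ R)
    (Q : Ideal (MvPolynomial σ R)) [Q.IsPrime] (hQ : C π ∈ Q) (hg : g ∈ Q)
    (hD : ∀ a, pderiv a g ∈ Q) (hH : (Hess g).det ∉ Q) (N : ℕ)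
    (hN : C π ^ N ∈ Ideal.span (insert g (Set.range fun a => pderiv a g))),
    ∃ (v : ℕ) (c u : MvPolynomial σ R) (q : σ → σ → MvPolynomial σ R), 1 ≤ v ∧ v ≤ N ∧ c ∉ Q ∧
      u ∉ Q ∧ (Matrix.of fun a b => q a b + q b a).det ∉ Q ∧
      c * g = u * C π ^ v + ∑ a, ∑ b, q a b * pderiv a g * pderiv b g

/-- OD-4. Heights of the kernels used in OD-5, OD-6.
PROOF. Let `J` be the finite set of variables with `θ (X j) = 0`, `J = {none}` or
`{none, some i}`. Kill the variables of `J` one after the other and use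
`Pool.Agent.H918R2.Quad.height_comap_ge` (the kernel of each step is a nonzero prime `(X j)` of a
domain, height at least one); the last step is `S[..] → (S/Q)[..]`, whose kernel is the extension
of `Q`, of height at least the height of `Q` (a chain of primes of `S` below `Q` extends to a chain
of primes of the polynomial ring). -/
def S_OD4 : Prop := ∀ {S τ : Type} [CommRing S] [IsDomain S] [IsNoetherianRing S] [Fintype τ]
    [DecidableEq τ] (Q : Ideal S) [Q.IsPrime] (n : ℕ) (hn : (n : ℕ∞) ≤ Q.height) (i : τ),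
    ((n + 1 : ℕ) : ℕ∞) ≤ (RingHom.ker (eval₂Hom (C.comp (Ideal.Quotient.mk Q))
      (fun o : Option τ => o.elim 0 X) :
        MvPolynomial (Option τ) S →+* MvPolynomial τ (S ⧸ Q))).height ∧
    ((n + 2 : ℕ) : ℕ∞) ≤ (RingHom.ker (eval₂Hom (C.comp (Ideal.Quotient.mk Q))
      (fun o : Option τ => o.elim 0 fun a => if h : a = i then 0 else X ⟨a, h⟩) :
        MvPolynomial (Option τ) S →+* MvPolynomial {a : τ // a ≠ i} (S ⧸ Q))).height

/-- OD-5. Regularity of the charts, first case: `v = 2 k + 1` and `T` in the prime. It may use OD-4.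
PROOF. Use `reg_crit` (Pool.Agent.H918R2.Quad.Reg2) with `W = MvPolynomial (Option τ) S`,
`C = MvPolynomial {a // a ≠ i} (S ⧸ Q)` (a regular ring, `S ⧸ Q` is a field) and the map
`θ` of the second part of OD-4 (`w, T ↦ 0`, `s_a ↦ X_a`), `a = {X (some i)}` (that is `T`),
`S` = the finset of the at most `card τ + 2` relations. `ker θ = (w, T) + Q W`, of height
`≥ card τ + 3`. `ker θ ≤ p.comap pr` since `w, T, Q` map into `p`. `hloc`: modulo the relations and
up to a factor outside `p`: `u w = - T qq ∈ (T)`; for `x ∈ Q` there is `c ∉ Q` with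
`c x ∈ (π, D_a)`, `π = w T ∈ (T)` and `D_a = w ^ k T ^ (k+1) s_a ∈ (T)`. -/
def S_OD5 : Prop := ∀ {S τ A : Type} [CommRing S] [IsDomain S] [IsNoetherianRing S] [Fintype τ]
    [DecidableEq τ] [CommRing A] (Q : Ideal S) [Q.IsMaximal] (π : S) (D : τ → S) (hπ : π ∈ Q)
    (hD : ∀ a, D a ∈ Q)
    (hgen : ∀ x ∈ Q, ∃ c, c ∉ Q ∧ c * x ∈ Ideal.span (insert π (Set.range D)))
    (hht : ((Fintype.card τ + 1 : ℕ) : ℕ∞) ≤ Q.height)
    (q : τ → τ → S) (u : S) (hu : u ∉ Q) (i : τ) (k : ℕ)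
    (pr : MvPolynomial (Option τ) S →+* A) (hpr : Function.Surjective pr)
    (hker : RingHom.ker pr = Ideal.span (insert (EE q u i k (2 * k + 1)) (rels π D k i)))
    (p : Ideal A) [p.IsPrime] (hpQ : ∀ x : S, pr (C x) ∈ p ↔ x ∈ Q) (hw : pr (X none) ∈ p)
    (hT : pr (X (some i)) ∈ p),
    IsRegularLocalRing (Localization.AtPrime p)

/-- OD-6. Regularity of the charts, the other cases. It may use OD-4.
PROOF. Let `ε ∈ {0, 1}`: if `T ∈ p` (more precisely `pr (X (some i)) ∈ p`) let `θ` be the second map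
of OD-4 and `a = {w, T}`, otherwise let `θ` be the first one and `a = {w}`. Use `reg_crit_one`
(Pool.Agent.H918R2.Quad.Reg2) with `E = EE q u i k v`; number of relations at most `card τ + 2`,
`a.card + (card τ + 2) ≤ (ker θ).height + 1` by OD-4 and `hht`.
`hloc`: `w` (and `T`) are in `a`; for `x ∈ Q` there is `c ∉ Q` with `c x ∈ (π, D_a)`, `π = w T`,
and `D_a = w ^ k T ^ (k+1) s_a` is in `(w)` if `k ≥ 1` and in `(T)` always; if `k = 0` then
`T = D_i` is in `p`, so we are in the case `T ∈ p`.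
`hE2`: put `Z = (p.comap pr).map θ`, a prime, `P = θ qq`, the quadratic form over the field
`S ⧸ Q` in the `θ s_a`, `θ s_i = 1`. Suppose `c * θ E ∈ Z ^ 2`, `c ∉ Z`. Then `θ E ∈ Z` and for all
derivations `∂` of the polynomial ring, `c ∂ (θ E) ∈ Z`, so `∂ (θ E) ∈ Z`.
 * `v ≥ 2 k + 2`: `θ E = P` since `θ w = 0`, `v - 2 k ≥ 1`.
 * `v = 2 k + 1` and `T ∉ p`: `θ E = θ T * P`, `θ T ∉ Z`; so `P ∈ Z` and `θ T * ∂_b P ∈ Z`,
   so `∂_b P ∈ Z` for `b ≠ i`.
 * `v = 2 k` (so `k ≥ 1`): `θ E = u + (θ T) ^ 2 P ∈ Z` and `u ∉ Z`, so `θ T ∉ Z` and `T ∉ p`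
   (if `T ∈ p` then `u ∈ p` contradiction), `∂_b P ∈ Z` for `b ≠ i`, and the derivative with respect
   to `θ T` (the variable `i`; `P` does not contain it): `2 * θ T * P ∈ Z`, and `P ∉ Z` (as
   `u ∉ Z`), so `2 ∈ Z`, in particular `2 P ∈ Z`.
In all cases `2 P ∈ Z` and `∂_b P ∈ Z` for all `b ≠ i`, where
`∂_b P = ∑_a (q_ab + q_ba) s_a` (bars omitted). Euler: `∑_b s_b (∑_a (q_ab + q_ba) s_a) = 2 P`, and
`s_i = 1`, so also `∑_a (q_ai + q_ia) s_a ∈ Z`. Multiply by the adjugate of `q + q^T`, whose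
determinant is not in `Q`: all `s_a ∈ Z`, but `s_i = 1`, contradiction. -/
def S_OD6 : Prop := ∀ {S τ A : Type} [CommRing S] [IsDomain S] [IsNoetherianRing S] [Fintype τ]
    [DecidableEq τ] [CommRing A] (Q : Ideal S) [Q.IsMaximal] (π : S) (D : τ → S) (hπ : π ∈ Q)
    (hD : ∀ a, D a ∈ Q)
    (hgen : ∀ x ∈ Q, ∃ c, c ∉ Q ∧ c * x ∈ Ideal.span (insert π (Set.range D)))
    (hht : ((Fintype.card τ + 1 : ℕ) : ℕ∞) ≤ Q.height)
    (q : τ → τ → S) (hq : (Matrix.of fun a b => q a b + q b a).det ∉ Q) (u : S) (hu : u ∉ Q)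
    (i : τ) (k v : ℕ) (hv : 2 * k ≤ v) (hv1 : 1 ≤ v)
    (pr : MvPolynomial (Option τ) S →+* A) (hpr : Function.Surjective pr)
    (hker : RingHom.ker pr = Ideal.span (insert (EE q u i k v) (rels π D k i)))
    (p : Ideal A) [p.IsPrime] (hpQ : ∀ x : S, pr (C x) ∈ p ↔ x ∈ Q) (hw : pr (X none) ∈ p)
    (hT : v = 2 * k + 1 → pr (X (some i)) ∉ p),
    IsRegularLocalRing (Localization.AtPrime p)

/-- OD-7. The chart of a local ring: combinatorial part.
Notation: `t j = x j / x s`, `y a = ∂_a G(x) / x_s ^ (d-1)`.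
PROOF. `exists_U_gen` gives `g₀ ∈ Gens` with `U 𝒪 (g₀ / f)`, `g₀ = m * ∏ g_j`. As in
`Pool.Agent.H945R2.D.GD1aux.exists_coord` (`1 ≤ D`) there is a factor `x s` of `m` with
`t j ∈ 𝒪` for all `j` (replace this factor by `x j` and divide) and `U 𝒪 (m / x_s ^ D)`.
Replacing the factor `g_j` of `g₀` by another element `g'` of `J_(j+1)` we see
`g' / g_j ∈ 𝒪`. Case A: some `y a`, `a ≠ s`, is a unit of `𝒪`: then for all `j`,
`x_s ^ (d-1) y a = ∂_a G(x) ∈ J_(j+1)` shows `U 𝒪 (g_j / x_s ^ (d-1))` (both quotients are in `𝒪`,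
because `J_(j+1) / x_s ^ (d-1)` is contained in `𝒪`), hence `U 𝒪 (f / x_s ^ (D + r (d-1)))`.
Otherwise all `y a`, `a ≠ s`, are nonunits of `𝒪`. Euler's relation `∑ x_a ∂_a G(x) = d G(x) = 0`
shows `y s = - ∑_{a ≠ s} t_a y_a`. Let `k ≤ r` be maximal with `y a / π ^ k ∈ 𝒪` for all `a`
(`k = 0` is possible). If `k = r` we are in case B. Let `k < r` and consider `g = g_k ∈ J_(k+1)`. If
`g = π ^ (k+1) m(x)` with a monomial `m` of degree `d - 1`, then
`y a / π ^ (k+1) = (∂_a G(x) / g) * (m(x) / x_s ^ (d-1)) ∈ 𝒪`, contradiction to the choice of `k`. So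
`g = ∂_a G(x)`; if `a ≠ s` let `i = a`; if `a = s`, then
`1 = - ∑_{b ≠ s} t_b (y_b / y_s)`, `y_b / y_s ∈ 𝒪`, and `𝒪` is local (`IsLoc`), so some `y_b / y_s`
is a unit and we let `i = b`. In any case `y_i ≠ 0`, all quotients `y_b / y_i` are in `𝒪` and
`w = π ^ (k+1) / y_i ∈ 𝒪` (since `π ^ (k+1) x_s ^ (d-1) ∈ J_(k+1)`). `w` is not a unit, otherwise
`y_b / π ^ (k+1) = (y_b / y_i) / w ∈ 𝒪` for all `b`. For `j < k` (index `j + 1 ≤ k`):
`J_(j+1) / (π ^ (j+1) x_s ^ (d-1)) ⊆ 𝒪`, as `y_b / π ^ (j+1) = (y_b / π ^ k) π ^ (k-j-1)`, and the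
element `π ^ (j+1) x_s ^ (d-1)` of `J_(j+1)` divided by `g_j` is in `𝒪`, so
`U 𝒪 (g_j / (π ^ (j+1) x_s ^ (d-1)))`. For `j ≥ k`: `J_(j+1) / (y_i x_s ^ (d-1)) ⊆ 𝒪`, as
`π ^ (j+1) / y_i = π ^ (j-k) w`, so `U 𝒪 (g_j / (y_i x_s ^ (d-1)))`. Multiply. -/
def S_OD7 : Prop := ∀ {R F : Type} [CommRing R] [IsDomain R] [IsDiscreteValuationRing R] [Field F]
    [Algebra R F] (𝒪 : Subring F) (hloc : IsLoc 𝒪) (hR : ∀ r : R, algebraMap R F r ∈ 𝒪)
    (hRF : Function.Injective (algebraMap R F)) (π : R) (hπ : Irreducible π)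
    {ι : Type} [Fintype ι] [DecidableEq ι] (G : MvPolynomial ι R) (d : ℕ) (hd : 1 ≤ d)
    (hGd : G.IsHomogeneous d) (x : ι → F) (hrel : aeval x G = 0) (r D : ℕ) (hD : 1 ≤ D)
    (f : F) (hf : f ≠ 0) (hfG : f ∈ Submodule.span R (Gens π G d x r D))
    (hG : ∀ g ∈ Gens π G d x r D, g / f ∈ 𝒪),
    ∃ s, x s ≠ 0 ∧ (∀ j, x j / x s ∈ 𝒪) ∧
      (((∃ a : {a : ι // a ≠ s}, U 𝒪 (aeval x (pderiv (a : ι) G) / x s ^ (d - 1))) ∧
        U 𝒪 (f / x s ^ (D + r * (d - 1)))) ∨
      ((∀ a : {a : ι // a ≠ s}, ¬ U 𝒪 (aeval x (pderiv (a : ι) G) / x s ^ (d - 1))) ∧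
        ((∀ a : {a : ι // a ≠ s},
          aeval x (pderiv (a : ι) G) / x s ^ (d - 1) / algebraMap R F π ^ r ∈ 𝒪) ∨
        ∃ (k : ℕ) (i : {a : ι // a ≠ s}), k < r ∧
          aeval x (pderiv (i : ι) G) ≠ 0 ∧
          (∀ a : {a : ι // a ≠ s}, aeval x (pderiv (a : ι) G) / aeval x (pderiv (i : ι) G) ∈ 𝒪) ∧
          aeval x (pderiv (i : ι) G) / x s ^ (d - 1) / algebraMap R F π ^ k ∈ 𝒪 ∧
          algebraMap R F π ^ (k + 1) / (aeval x (pderiv (i : ι) G) / x s ^ (d - 1)) ∈ 𝒪 ∧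
          ¬ U 𝒪 (algebraMap R F π ^ (k + 1) / (aeval x (pderiv (i : ι) G) / x s ^ (d - 1))) ∧
          U 𝒪 (f / (x s ^ (D + r * (d - 1)) * (∏ j ∈ Finset.range k, algebraMap R F π ^ (j + 1)) *
            (aeval x (pderiv (i : ι) G) / x s ^ (d - 1)) ^ (r - k))))))

/-- OD-8. The local theorem. It may use OD-2, OD-3, OD-5, OD-6, OD-7.
PROOF. Take `s` from OD-7, `t j = x j / x s`, `σ = {j // j ≠ s}`, `g = deh s G`,
`e : MvPolynomial σ R →ₐ F`, `X j ↦ t j`; `e g = 0`, `e (pderiv a g) = y a :=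
aeval x (pderiv a G) / x s ^ (d-1)` (`pderiv_deh`, `aeval_deh`, `aeval_scale` in
Pool.Agent.TH214.RM; `pderiv a G` is homogeneous of degree `d - 1`); `e` has values in `𝒪`; let `Q` be
the prime of the `z` with `¬ U 𝒪 (e z)` (`primeOf`). `C r ∈ Q ↔ ¬ IsUnit r` by `hRU`. For every
element `g'` of `Gens` we have `g' = x_s ^ (D + r (d-1)) * e z`-type formulas below.
Case A of OD-7: `𝒪` is a localization of `R[t]`: `frac_of_chart` with `h = x_s ^ (D + r (d-1))`, then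
`regular_of_pres` with `A = R[σ]/(g)` and `regular_of_pderiv` exactly as at the end of `gdg`
(Pool.Agent.TH214.RM.Good).
Otherwise all `pderiv a g` are in `Q`, so by `hnd` the Hessian determinant is not in `Q`; OD-2
(with `D a = pderiv a g`) and OD-3 apply: `0 = e u * π ^ v + ∑ e q_ab * y a * y b`, `1 ≤ v ≤ N ≤ r`,
`U 𝒪 (e u)`. Case B: `z a = y a / π ^ r ∈ 𝒪`: dividing by `π ^ v`,
`e u = - π ^ (2 r - v) * ∑ e q_ab z_a z_b`, `2 r - v ≥ 1` and `π` is not a unit of `𝒪`,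
contradiction. Case C: `k < r`, `i`. Let `T = y i / π ^ k`, `w = π ^ (k+1) / y i`,
`s a = y a / y i`; `w T = π`, `y a = w ^ k T ^ (k+1) s a`, `s i = 1`, all in `𝒪`, `w` nonunit. Dividing
the relation by `w ^ (min) ..`: `0 = e u w ^ v T ^ v + w ^ (2k) T ^ (2k+2) P`, `P = ∑ e q_ab s_a s_b`
(all of `w, T` nonzero). If `v < 2 k`: `e u = - w ^ (2k-v) T ^ (2k+2-v) P` is a nonunit,
contradiction. So `2 k ≤ v` and the value of `EE q u i k v` is `0` in the three cases.
Let `W = MvPolynomial (Option σ) (MvPolynomial σ R)`, an algebra over `R`, `eW : W → F` the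
extension of `e` by `w`, `T`, `s a` (`none ↦ w`, `some i ↦ T`, `some a ↦ s a`), `A = W / (EE, rels)`
(`exists_quot`). `frac_of_chart` with
`h = x_s ^ (D + r (d-1)) * (∏ j in range k, π ^ (j+1)) * y_i ^ (r-k)`: for a factor `g_j` in
`J_(j+1)`: if `j < k`, `g_j / (π ^ (j+1) x_s ^ (d-1))` is `e` of a monomial, or
`y_a / π ^ (j+1) = T s_a π ^ (k-j-1)` (`a ≠ s`), or for `a = s`
`y_s / π ^ (j+1) = - ∑ t_a y_a / π ^ (j+1)` (Euler: `∑ x_a ∂_a G(x) = d G(x) = 0`); if `k ≤ j`,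
`g_j / (y_i x_s ^ (d-1))` is `π ^ (j-k) w` times `e` of a monomial, or `s_a`, or `- ∑ t_a s_a`.
`regular_of_pres` with `y j = C (X j)`, `P = c * g ≠ 0` (`deh_ne_zero`; `pr (C (c * g)) = 0` because
`C (c g) = C u (C π) ^ v + ∑ C q_ab C D_a C D_b ≡ C u w ^ v T ^ v + w ^ (2k) T ^ (2k+2) qq`, which is
a multiple of `EE`), `j₀` from `hind`, `hgen`: multiply by powers of `D_i`, `π ^ k`:
`D_i s_a ≡ D_a`, `π ^ k T ≡ D_i`, `D_i w ≡ π ^ (k+1)` modulo `rels`. Regularity of `A` at the prime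
`q`: OD-5 if `v = 2 k + 1` and `T` is a nonunit, OD-6 otherwise, with `S = MvPolynomial σ R`,
`D a = pderiv a g`. -/
def S_OD8 : Prop := ∀ {R F : Type} [CommRing R] [IsDomain R] [IsDiscreteValuationRing R] [Field F]
    [Algebra R F] (𝒪 : Subring F) (hloc : IsLoc 𝒪) (hR : ∀ r : R, algebraMap R F r ∈ 𝒪)
    (hRU : ∀ r : R, U 𝒪 (algebraMap R F r) → IsUnit r)
    (hRF : Function.Injective (algebraMap R F)) (π : R) (hπ : Irreducible π)
    {ι : Type} [Fintype ι] [DecidableEq ι] (G : MvPolynomial ι R) (hG0 : G ≠ 0) (d : ℕ)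
    (hd : 1 ≤ d) (hGd : G.IsHomogeneous d)
    (hnd : ∀ (s : ι) (Q : Ideal (MvPolynomial {j : ι // j ≠ s} R)), Q.IsPrime → deh s G ∈ Q →
      (∀ r : R, C r ∈ Q ↔ ¬ IsUnit r) → (∀ j, pderiv j (deh s G) ∈ Q) →
        (Hess (deh s G)).det ∉ Q)
    (x : ι → F) (hrel : aeval x G = 0)
    (hind : ∀ s, x s ≠ 0 → ∃ j₀ : {i : ι // i ≠ s},
      AlgebraicIndependent R (fun i : {i : {i : ι // i ≠ s} // i ≠ j₀} => x i / x s))
    (N : ℕ) (hN : ∀ s, C π ^ N ∈ Ideal.span (insert (deh s G)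
      (Set.range fun a => pderiv a (deh s G))))
    (r D : ℕ) (hr : N ≤ r) (hD : 1 ≤ D) (f : F) (hf : f ≠ 0)
    (hfG : f ∈ Submodule.span R (Gens π G d x r D)) (hG : ∀ g ∈ Gens π G d x r D, g / f ∈ 𝒪)
    (hloc2 : IsLocOf 𝒪 (chart R (Submodule.span R (Gens π G d x r D)) f)),
    IsRegularLocalRing 𝒪

/-- OD-9. Smoothness gives `N`.
PROOF. `Smooth`: a power of `X s` is in `(pderiv j G)` over `K`. Apply `deh s` (`X s ↦ 1`):
`1 ∈ (deh s (pderiv j G) : j)`; for `j ≠ s` this is `pderiv j (deh s G)` (`pderiv_deh`), and for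
`j = s` Euler's relation `∑ X_j pderiv j G = d G` (`MvPolynomial.IsHomogeneous.sum_X_mul_pderiv` or
`all_pderiv_mem` in Pool.Agent.TH214.RM.Smooth) gives
`deh s (pderiv s G) = d deh s G - ∑_{j ≠ s} X_j pderiv j (deh s G)`. So
`1 ∈ (deh s G, pderiv j (deh s G))` over `K`; clear denominators (`clear_span`): `C a` is in the
ideal over `R`, `a ≠ 0`, `a = unit * π ^ N_s`; take the maximum over `s`. -/
def S_OD9 : Prop := ∀ {R K : Type} [CommRing R] [IsDomain R] [IsDiscreteValuationRing R] [Field K]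
    [Algebra R K] [IsFractionRing R K] (π : R) (hπ : Irreducible π) {ι : Type} [Fintype ι]
    [DecidableEq ι] (G : MvPolynomial ι R) (d : ℕ) (hGd : G.IsHomogeneous d)
    (hsm : Smooth (map (algebraMap R K) G)),
    ∃ N : ℕ, ∀ s, C π ^ N ∈ Ideal.span (insert (deh s G)
      (Set.range fun a => pderiv a (deh s G)))

/-- OD-10. The local module at a prime with nondegenerate singular points. It may use OD-8, OD-9.
PROOF. As `locMod_of_crit` and `regAt_of_crit` (Pool.Agent.TH214.RM.Glob): by `locMod_lin` it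
suffices to prove `LocMod 𝔭 x'`. Let `π ∈ 𝔭`, `π ∉ 𝔭 ^ 2`; it is a uniformizer of
`R = O_𝔭 ⊆ K` (the localization used in `regAt_of_crit`, a discrete valuation ring). Take `N`
from OD-9 (over `R`), `r = N`, `D₀ = 1 + r (d-1)`. For `D ≥ D₀` let `D' = D - r (d-1) ≥ 1`,
`T = Gens π G d x' r D'` (over `O`), `N₀ = span_O (range x' ^ D)`,
`P = {y ∈ N₀ | ∃ s ∉ 𝔭, s • y ∈ span_O T}`. `T ⊆ N₀` (the `∂_a G(x')` are in
`span_O (range x' ^ (d-1))`). (1) clear. (2): for a generator `m * ∏ m_j` of `N₀`,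
`π ^ (1 + ... + r)` times it is in `T`; for `c ∈ 𝔭 ^ (1 + ... + r)` there are `s ∉ 𝔭` and `a` with
`s c = a π ^ (1 + ... + r)` (`exists_pow_dvd`). (3) if `M ≤ P` and `M`, `P` agree locally at `𝔭` then
`M ⊆ span_R T` and for `y ∈ span_R T` some `s • y ∈ M`; use `transfer` with `T` and `hind_of`, as in
`regAt_of_crit`, and OD-8 over `R` (the set `Gens` over `R` of `map (algebraMap O R) G` is the same
set `T`); the condition on the Hessian over `R` from the one over `O` as in `crit_loc`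
(comap of the prime under `map (algebraMap O R)`). -/
def S_OD10 : Prop := ∀ {O K F : Type} [CommRing O] [IsDedekindDomain O] [Field K] [Algebra O K]
    [IsFractionRing O K] [Field F] [Algebra K F] [Algebra O F] [IsScalarTower O K F]
    (𝔭 : Ideal O) [𝔭.IsPrime] (h0 : 𝔭 ≠ ⊥) {n : ℕ}
    (G : MvPolynomial (Fin (n + 2)) O)
    (hG0 : G ≠ 0) (d : ℕ) (hd : 2 ≤ d) (hGd : G.IsHomogeneous d) (hnd : Nondeg 𝔭 G)
    (hsm : Smooth (map (algebraMap O K) G))
    (x : Fin (n + 2) → F) (hx0 : x 0 = 1)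
    (hgen : IntermediateField.adjoin K (Set.range x) = ⊤)
    (b : Fin n → F) (htb : IsTranscendenceBasis K b)
    (x' : Fin (n + 2) → F) (u u' : Fin (n + 2) → Fin (n + 2) → K)
    (hu : ∀ i, x i = ∑ j, algebraMap K F (u i j) * x' j)
    (hu' : ∀ i, x' i = ∑ j, algebraMap K F (u' i j) * x j) (hrel : aeval x' G = 0),
    LocMod 𝔭 x

/-- OD-11. Smoothness and linear changes of coordinates.
PROOF. Let `φ = aeval (fun i => ∑ j, C (T i j) * X j)`, an automorphism with inverse `φ'` (given by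
`T'`). Chain rule: `pderiv m (φ G) = ∑ i, C (T i m) * φ (pderiv i G)`, so the ideal of the partial
derivatives of `φ G` is the image under `φ` of the ideal of the partial derivatives of `G`
(`T` invertible), and `X i = ∑ m, C (T' i m) * φ (X m)` is in the radical. The scalar `l ≠ 0` does
not matter. -/
def S_OD11 : Prop := ∀ {K : Type} [Field K] {n : ℕ} (G : MvPolynomial (Fin n) K) (hsm : Smooth G)
    (l : K) (hl : l ≠ 0) (T T' : Matrix (Fin n) (Fin n) K) (hT : T * T' = 1),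
    Smooth (C l * aeval (fun i => ∑ j, C (T i j) * X j) G : MvPolynomial (Fin n) K)

end Pool.Agent.Q40.OD
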