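import Pool.Agent.Q40.OD.Defs2

/-! Project OD, part 2: the uniform Ekedahl sieve and the density of forms with nondegenerate
reductions. Lemma jobs with proofs. -/

set_option autoImplicit false
set_option linter.unusedSectionVars false
set_option linter.unusedVariables false

open scoped Pointwise

namespace Pool.Agent.Q40.OD

open Pool.Agent.TH214.RM MvPolynomial

/-- OD-21. Zeros of a polynomial in a box of integers, with values in a domain `k` (used for
`k = ZMod p` and `k = ℤ`).
PROOF. Induction on `N` (`MvPolynomial.finSuccEquiv`). `N = 0`: `F` is a nonzero constant, the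
left side is `0`. Step: `F = ∑ g_j x ^ j`, `x` the first variable, `e` maximal with `g_e ≠ 0`;
`e + totalDegree g_e ≤ totalDegree F`. The points `(t, c')` with `g_e(c') = 0` are at most
`A * (totalDegree g_e * B * A ^ (N-1))` (zero if `N = 0`, where `g_e` is a nonzero constant); for all
other `c'` (at most `A ^ N`) the polynomial `F(x, c')` is nonzero of degree `e` in `x` and has at
most `e` roots in `k`, each is the image of at most `B` elements of `T 0`. -/
def S_EK1 : Prop := ∀ {k : Type} [CommRing k] [IsDomain k] {N : ℕ} (F : MvPolynomial (Fin N) k)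
    (hF : F ≠ 0) (T : Fin N → Set ℤ) (hT : ∀ i, (T i).Finite) (A B : ℝ)
    (hA : ∀ i, (Nat.card (T i) : ℝ) ≤ A) (hB : 0 ≤ B)
    (hTB : ∀ i (r : k), (Nat.card {t : ℤ // t ∈ T i ∧ (t : k) = r} : ℝ) ≤ B),
    (Nat.card {c : Fin N → ℤ // (∀ i, c i ∈ T i) ∧ eval (fun i => (c i : k)) F = 0} : ℝ) ≤
      F.totalDegree * B * A ^ (N - 1)

/-- OD-22. Elimination of one variable (Gauss's lemma).
PROOF. Let `L = FractionRing (MvPolynomial (Fin N) ℚ)` and regard the elements of `S` as
polynomials in `x = X 0` over `MvPolynomial (Fin N) ℤ` (`finSuccEquiv`), `⊆ L[x]`. `L[x]` is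
a principal ideal ring: the ideal generated by `S` is `(g)`. If `g` is not a unit: if `g = 0` all
elements of `S` are `0`, and `P = 0` divides them but is no unit; if `g` has positive degree, its
primitive part `g₀` in `MvPolynomial (Fin N) ℚ [x]` (a unique factorization domain,
`IsLocalization.integerNormalization`, `primPart`) divides all elements of `S` over `ℚ` by Gauss's
lemma (`Polynomial.IsPrimitive.dvd_iff_fraction_map_dvd_fraction_map`) and has positive degree, so it
is no unit, contradiction to `hS`. So `1 = ∑ λ_G G` over `L`; clear the denominators (first in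
`MvPolynomial (Fin N) ℚ`, then an integer). -/
def S_EK2 : Prop := ∀ {N : ℕ} (S : Finset (MvPolynomial (Fin (N + 1)) ℤ))
    (hS : Cop (S : Set (MvPolynomial (Fin (N + 1)) ℤ))),
    ∃ R : MvPolynomial (Fin N) ℤ, R ≠ 0 ∧
      rename Fin.succ R ∈ Ideal.span (S : Set (MvPolynomial (Fin (N + 1)) ℤ))

/-- OD-23. Uniform Ekedahl sieve. It may use OD-21, OD-22.
PROOF. Induction on `N`. `N = 0`: the elements of `S` are constants, not all zero (else `P = 0` in
`hS`); if `G ∈ S` is a nonzero constant `a`, no prime `> |a|` divides it: take `C = |a| + 1`, the set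
is empty. Step `N + 1`, `c = (x, c')`, `x = c 0`: let `S'` be the finite set of all coefficients
`g_{G,j}` in `MvPolynomial (Fin N) ℤ` of the `G ∈ S`, regarded as polynomials in `x`. `Cop S'`: if `P`
divides all of them, `rename Fin.succ P` divides all `G`. Let `C'` be the constant for `S'`, `R` the
polynomial of OD-22, `R = ∑ λ_G G`, `D = totalDegree R`, `e` the maximal degree in `x` of the `G`.
Let `A = 2 H / Q + 1` (real). The number of integers `|t| ≤ H`, `t ≡ b_i (Q)`, is `≤ A`, and the
number of those in a residue class modulo a prime `p` not dividing `Q` is `≤ 2 H / (p Q) + 1`.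
Count the `c` in question according to a prime `p > M` as in the statement.
(a) all `g_{G,j}(c')` are divisible by `p`: at most `(C'/M) A ^ N` tuples `c'` (all `p` together),
so at most `(C'/M) A ^ (N+1)` tuples `c`.
(b) otherwise some `G(x, c')` is modulo `p` a nonzero polynomial in `x` of degree `≤ e`, and
`p ∣ R(c')` (evaluate `R = ∑ λ_G G`). So `x` is in at most `e` residue classes modulo `p`.
(b1) `R(c') = 0`: at most `D A ^ (N-1)` tuples `c'` by OD-21 with `k = ℤ`, `B = 1` (if `N = 0` none), so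
at most `D A ^ N` tuples `c`.
(b2) `R(c') ≠ 0` and `p ≤ A`: then `2 H / (p Q) + 1 ≤ 2 A / p`. For `M` larger than all coefficients
of `R` in absolute value `R ≠ 0` modulo `p`, and by OD-21 with `k = ZMod p`, `B = 2 A / p` there are at
most `D (2 A / p) A ^ (N-1)` tuples `c'` (none if `N = 0`) and for each at most `e (2 A / p)` numbers
`x`; the sum over `p > M` is at most `4 D e A ^ (N+1) ∑_{p > M} 1/p² ≤ (4 D e / M) A ^ (N+1)`.
(b3) `R(c') ≠ 0` and `p > A`: if `p_1, ..., p_k > A` are different primes dividing `R(c')` then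
`A ^ k ≤ |R(c')| ≤ C_R (H + 1) ^ D`; for `H ≥ H₀(Q)` we have `A > C_R` and `A ^ 2 > H + 1`, so
`k ≤ 2 D + 1`. For each `c'` and `p` at most `2 e` numbers `x` (`2 H / (p Q) + 1 ≤ 2`). At most
`2 e (2 D + 1) A ^ N` tuples.
Together at most `((C' + 4 D e) / M) A ^ (N+1) + (D + 2 e (2 D + 1)) A ^ N`, and the last term is at
most `(1/M) A ^ (N+1)` if `A ≥ M (D + 2 e (2 D + 1))`, that is, for `H ≥ H₀(M, Q)`. Take
`C = C' + 4 D e + 1 + ` (the maximum of the coefficients of `R`). -/
def S_EK3 : Prop := ∀ {N : ℕ} (S : Finset (MvPolynomial (Fin N) ℤ))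
    (hS : Cop (S : Set (MvPolynomial (Fin N) ℤ))),
    ∃ C : ℕ, 0 < C ∧ ∀ M Q : ℕ, C ≤ M → 1 ≤ Q → ∃ H₀ : ℕ, ∀ H : ℕ, H₀ ≤ H → ∀ b : Fin N → ℤ,
      (Nat.card {c : Fin N → ℤ // (∀ i, |c i| ≤ H) ∧ (∀ i, (Q : ℤ) ∣ c i - b i) ∧
        ∃ p : ℕ, p.Prime ∧ M < p ∧ ¬ p ∣ Q ∧ ∀ G ∈ S, (p : ℤ) ∣ eval c G} : ℝ) ≤
      ((C : ℝ) / M) * (2 * H / Q + 1) ^ N

/-- OD-24. The polynomials vanishing at a point of small transcendence degree.
PROOF. If `P = 0`, then `aeval c` is injective, so `c` is algebraically independent and so is each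
subfamily, contradiction. Let `P ≠ 0` be no unit: then `P` is not constant and some variable `i`
has `0 < degreeOf i P`. By `hc` there is a nonzero polynomial `g` in the variables `j ≠ i` with
`g(c) = 0`. Then `P ∣ rename Subtype.val g ≠ 0`, whose `degreeOf i` is `0`, contradiction
(`degreeOf_mul_eq`, see `Pool.Agent.TH214.RM.not_dvd_of_degreeOf`). -/
def S_EK4 : Prop := ∀ {ι Λ : Type} [Fintype ι] [Nonempty ι] [DecidableEq ι] [Field Λ] [Algebra ℚ Λ]
    (c : ι → Λ) (hc : ∀ i, ¬ AlgebraicIndependent ℚ (fun j : {j : ι // j ≠ i} => c j))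
    (P : MvPolynomial ι ℚ) (hP : ∀ G : MvPolynomial ι ℚ, aeval c G = 0 → P ∣ G),
    IsUnit P

/-- OD-25. Dimension count: the forms with a degenerate singular point.
PROOF. Let `σ = {j // j ≠ s}`, `g(x) = (deh s (form c))(x + P)` in `Λ[σ]` (`aeval (X j + C (P j))`).
Its coefficients of degree `0` and `1` are `0` by `h0`, `h1` (values at `0` of `g` and of its
derivatives), its total degree is `≤ d`. Let `k'` be the subfield of `Λ` generated over `ℚ` by the
`n + 1` elements `P j` and the coefficients `g_β`, `2 ≤ |β| ≤ d`. Since `g` and `P` are over `k'`, so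
is `deh s (form c) = g(x - P)`, and all `c α` are in `k'`: `c α` is the coefficient of
`deh s (form c)` at the restriction of `α` to `σ` (the restriction is injective on the exponents of
degree `d` and has as image all `β` with `|β| ≤ d`). So `k'` is generated by
`(n + 1) + (card (Ix n d) - 1 - (n + 1)) = card (Ix n d) - 1` elements. They satisfy a nontrivial
polynomial relation over `ℚ`: the Hessian matrix of `deh s (form c)` at `P` is the Hessian matrix
of `g` at `0`, with entries `g_(e_a + e_b)` (`a ≠ b`), `2 g_(2 e_a)`; its determinant is `0` by `h2`,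
and the determinant of the matrix with entries the variables `X_(e_a + e_b)`, `2 X_(2 e_a)` is a
nonzero polynomial (put `X_(2 e_a) = 1`, `X_(e_a + e_b) = 0`). So `k'` has transcendence degree at
most `card (Ix n d) - 2` over `ℚ` and cannot contain `card (Ix n d) - 1` algebraically independent
elements. -/
def S_EK5 : Prop := ∀ {n d : ℕ} (hd : 2 ≤ d) {Λ : Type} [Field Λ] [CharZero Λ] (c : Ix n d → Λ)
    (s : Fin (n + 2)) (P : {j : Fin (n + 2) // j ≠ s} → Λ)
    (h0 : eval P (deh s (form n d c)) = 0)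
    (h1 : ∀ b, eval P (pderiv b (deh s (form n d c))) = 0)
    (h2 : ((Hess (deh s (form n d c))).map (eval P)).det = 0) (i : Ix n d),
    ¬ AlgebraicIndependent ℚ (fun j : {j : Ix n d // j ≠ i} => c j)

/-- OD-26. Dimension count: the singular forms.
PROOF. As OD-25 (`ek5`) without the Hessian: all `c α` are in the field generated by
`card (Ix n d) - 1` elements. -/
def S_EK5P : Prop := ∀ {n d : ℕ} (hd : 2 ≤ d) {Λ : Type} [Field Λ] [CharZero Λ] (c : Ix n d → Λ)
    (s : Fin (n + 2)) (P : {j : Fin (n + 2) // j ≠ s} → Λ)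
    (h0 : eval P (deh s (form n d c)) = 0)
    (h1 : ∀ b, eval P (pderiv b (deh s (form n d c))) = 0),
    ¬ AlgebraicIndependent ℚ c

/-- OD-27. Coprime equations for the forms with degenerate reduction. It may use OD-24, OD-25.
PROOF. For every chart `s` let `B_s = MvPolynomial (Ix n d ⊕ {j // j ≠ s}) ℤ` (the variables `inl α`
are the coefficients, `inr j` the coordinates of the point), `f_s = deh s (form of the variables)`
and let `J_s` be the ideal of `B_s` generated by `f_s(P)`, the `∂_b f_s(P)` and the determinant of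
the Hessian of `f_s` at `P`. Let `J_s'` be its extension to `B_s ⊗ ℚ` and `I` the ideal of the
`G ∈ MvPolynomial (Ix n d) ℤ` whose image is in the radical of `J_s'` for all `s`. Let `S` be a
finite set of generators of `I` (Noetherian).
`Cop S`: let `P₀` be a polynomial over `ℚ` which divides all elements of `S`, so all elements of `I`,
and suppose it is not a unit. It has an irreducible factor or is `0`; in any case there is a prime
ideal `(P₁)`, `P₁` irreducible or `0`, containing `P₀`. For each `s` and each minimal prime `𝔓` of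
`J_s'` (finitely many) let `Λ` be the fraction field of `B_s ⊗ ℚ / 𝔓` and `c` the classes of the
variables `inl α`: by OD-25 (`h0`, `h1`, `h2` hold in `Λ`) and OD-24 there is `G_𝔓` over `ℚ` with
`G_𝔓(c) = 0` and `P₁ ∤ G_𝔓`. The product of all `G_𝔓` (for all `s`, `𝔓`) is in the radical of all
`J_s'` and, times an integer, in `I`, so it is divisible by `P₁` (if `P₁ = 0` it is `0`),
contradiction to `(P₁)` being prime.
`N₀`: for `G ∈ S` and each `s` there are `a ≥ 1` and `e` with `a G ^ e ∈ J_s` (clear denominators); let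
`N₀` be larger than all these `a`. Let `p > N₀` and let `form c` be degenerate at `p`: there are
`s` and a prime `Q` of `MvPolynomial {j // j ≠ s} ℤ` lying over `(p)` and containing `deh s (form c)`,
its derivatives and the determinant of its Hessian. The homomorphism
`B_s → MvPolynomial _ ℤ / Q`, `inl α ↦ c α`, `inr j ↦ X j`, kills `J_s`, so it kills `a G ^ e`; so
`a * (G(c)) ^ e ∈ Q ∩ ℤ = (p)` and `p ∣ G(c)` since `p ∤ a`. -/
def S_EK6 : Prop := ∀ (n d : ℕ) (hd : 2 ≤ d),
    ∃ (S : Finset (MvPolynomial (Ix n d) ℤ)) (N₀ : ℕ),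
      Cop (S : Set (MvPolynomial (Ix n d) ℤ)) ∧
      ∀ (c : Ix n d → ℤ) (p : ℕ), p.Prime → N₀ < p →
        ¬ Nondeg (Ideal.span {(p : ℤ)}) (form n d c) → ∀ G ∈ S, (p : ℤ) ∣ eval c G

/-- OD-28. An equation for the singular forms. It may use OD-26.
PROOF. As in OD-27, with the ideals `J_s'` generated by `f_s(P)` and the `∂_b f_s(P)` only: for each
`s` and each minimal prime `𝔓` of `J_s'` there is `G_𝔓 ≠ 0` with `G_𝔓(c) = 0` in `Λ` (OD-26); let `Δ`
be the product, times an integer; its powers are in `J_s'` for all `s`. Let `form c` be not smooth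
over `ℚ`: there is a prime ideal `𝔓` of `MvPolynomial (Fin (n+2)) ℚ` which contains all
`pderiv j (form c)` and does not contain `X s`. In the fraction field of the quotient let
`P j = X j / X s`. All `pderiv j (form c)` vanish at `(P j)`, `P s = 1` (homogeneous), and by Euler
(`d ≠ 0`) also `form c`; so `deh s (form c)` and its derivatives vanish at `P`, and `Δ(c) = 0`
(a power of it is in the image of `J_s'`, which is `0`). -/
def S_EK6P : Prop := ∀ (n d : ℕ) (hd : 2 ≤ d),
    ∃ Δ : MvPolynomial (Ix n d) ℤ, Δ ≠ 0 ∧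
      ∀ c : Ix n d → ℤ, ¬ Smooth (map (Int.castRingHom ℚ) (form n d c)) → eval c Δ = 0

/-- OD-29. A hypersurface with a smooth fibre is smooth.
PROOF. Otherwise there are a prime ideal `𝔓` of `MvPolynomial (Fin (n+2)) ℚ` containing all
`pderiv j G` and `s` with `X s ∉ 𝔓`. Let `Λ` be the fraction field of the quotient and `x j` the
class of `X j`, `x s ≠ 0`. All `pderiv j G` vanish at `x`, and by Euler's relation (`d ≠ 0` in `Λ`)
`G(x) = 0`. Let `V` be a valuation ring of `Λ` whose maximal ideal contains `p` (Mathlib: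
valuation rings dominating a local subring; `p` is not a unit of the localization of `ℤ` at `p`). There
is `s'` with `x s' ≠ 0` and `t j = x j / x s' ∈ V` for all `j` (a nonzero coordinate of largest
valuation). Let `Q` be the kernel of `MvPolynomial {j // j ≠ s'} ℤ → V / 𝔪`, `X j ↦ t j`. It is prime,
lies over `(p)` and contains `deh s' G` and its derivatives, contradiction to `SmAt`. -/
def S_EK7 : Prop := ∀ {n d : ℕ} (hd : 1 ≤ d) (G : MvPolynomial (Fin (n + 2)) ℤ) (hG : G.IsHomogeneous d)
    (p : ℕ) (hp : p.Prime) (h : SmAt (Ideal.span {(p : ℤ)}) G),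
    Smooth (map (Int.castRingHom ℚ) G)

/-- OD-30. Smooth hypersurfaces modulo `p`.
PROOF. If `p ∤ d` let `G = ∑ X_i ^ d`, otherwise `G = X_0 ^ d + ∑_{i ≤ n} X_i X_(i+1) ^ (d-1)`. Let `Q` be a
prime of the chart `s` over `(p)` with `deh s G` and all `pderiv j (deh s G)` in `Q`. By
`all_pderiv_mem` or Euler's relation also `deh s (pderiv s G) ∈ Q`. Let `x_j = deh s (X_j)`, `x_s = 1`.
First case: `d x_j ^ (d-1) ∈ Q` for all `j`, in particular `d ∈ Q`, so `p ∣ d`, contradiction.
Second case, `p ∣ d` so `d ∈ Q`: the derivative with respect to `X_0` gives `x_1 ^ (d-1) ∈ Q`,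
`x_1 ∈ Q`; the one with respect to `X_i`, `1 ≤ i ≤ n`, is
`(d-1) x_(i-1) x_i ^ (d-2) + x_(i+1) ^ (d-1)`, and `d - 2 ≥ 1`, so `x_i ∈ Q` implies `x_(i+1) ∈ Q`.
So `x_1, ..., x_(n+1) ∈ Q`, and `deh s G ∈ Q` gives `x_0 ∈ Q`. But `x_s = 1`, contradiction. -/
def S_EK8 : Prop := ∀ (n d : ℕ) (hd : 3 ≤ d) (p : ℕ) (hp : p.Prime),
    ∃ c : Ix n d → ℤ, SmAt (Ideal.span {(p : ℤ)}) (form n d c)

/-- OD-31. Positive proportion. It may use OD-23, OD-27, OD-29, OD-30.
PROOF. Transfer OD-23 (`ek3`) to the index set `Ix n d` (`Fintype.equivFin`, `rename`). Let `S`, `N₀` be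
as in OD-27 and `C` the constant of OD-23 for `S`; let `M ≥ 2, N₀, 4 C`, `Q = ∏_{p ≤ M} p`, and by the
Chinese remainder theorem let `b : Ix n d → ℤ` be congruent modulo each prime `p ≤ M` to the
coefficients of a form as in OD-30. `SmAt (p) G` depends only on `G` modulo `p`. Let `c ≡ b` modulo `Q`:
then `SmAt (p) (form c)` and hence `Nondeg (p) (form c)` for `p ≤ M`, and `form c` is smooth over `ℚ` by
OD-29 with `p = 2`. If moreover there is no prime `p > M` (so `p ∤ Q`) dividing all `eval c G`, `G ∈ S`,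
then `Nondeg (p) (form c)` for all `p > M` by OD-27. The number of `c` with `|c α| ≤ H`, `c ≡ b (Q)`, is
at least `(2 H / Q - 1) ^ k`, `k = card (Ix n d)`, and the number of exceptions is at most
`(1/4) (2 H / Q + 1) ^ k`; for large `H` the difference is at least
`(1/2) (2 H / Q) ^ k ≥ δ (2 H + 1) ^ k`, `δ = 1 / (4 Q ^ k)`. -/
def S_EK9 : Prop := ∀ (n d : ℕ) (hd : 3 ≤ d),
    ∃ δ : ℝ, 0 < δ ∧ ∃ H₀ : ℕ, ∀ H : ℕ, H₀ ≤ H →
      δ * (2 * H + 1) ^ (Fintype.card (Ix n d)) ≤
      (Nat.card {c : Ix n d → ℤ // (∀ α, |c α| ≤ H) ∧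
        Smooth (map (Int.castRingHom ℚ) (form n d c)) ∧
        ∀ p : ℕ, p.Prime → Nondeg (Ideal.span {(p : ℤ)}) (form n d c)} : ℝ)

/-- OD-32. Almost all forms have nondegenerate reductions modulo all large primes. It may use
OD-21, OD-23, OD-27, OD-28.
PROOF. `S`, `N₀`, `C` as in OD-31, `Δ` as in OD-28, `M ≥ N₀, 2 C / ε`, OD-23 with `Q = 1`, `b = 0`: at most
`(ε/2) (2 H + 1) ^ k` exceptions because of primes `p > M`, and by OD-21 (`ek1` with `k = ℤ`, `B = 1`,
`A = 2 H + 1`) at most `deg Δ (2 H + 1) ^ (k-1) ≤ (ε/2) (2 H + 1) ^ k` with `Δ(c) = 0`. -/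
def S_EK10 : Prop := ∀ (n d : ℕ) (hd : 2 ≤ d) (ε : ℝ) (hε : 0 < ε),
    ∃ M H₀ : ℕ, ∀ H : ℕ, H₀ ≤ H →
      (Nat.card {c : Ix n d → ℤ // (∀ α, |c α| ≤ H) ∧
        ¬ (Smooth (map (Int.castRingHom ℚ) (form n d c)) ∧
          ∀ p : ℕ, p.Prime → M < p → Nondeg (Ideal.span {(p : ℤ)}) (form n d c))} : ℝ) ≤
      ε * (2 * H + 1) ^ (Fintype.card (Ix n d))

end Pool.Agent.Q40.OD
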