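import Pool.Agent.Q40.OD.Defs2

/-! Project OD, part 3: one-parameter families. Lemma jobs with proofs. -/

set_option autoImplicit false
set_option linter.unusedSectionVars false
set_option linter.unusedVariables false

namespace Pool.Agent.Q40.OD

open Pool.Agent.TH214.RM MvPolynomial NumberField

/-- The member of the family of forms with the coefficients `c α` (binary forms) at the point `v`. -/
noncomputable def Fam {R A : Type} [CommRing R] [CommRing A] [Algebra R A] (n d : ℕ)
    (c : Ix n d → MvPolynomial (Fin 2) R) (v : Fin 2 → A) : MvPolynomial (Fin (n + 2)) A :=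
  form n d fun α => aeval v (c α)

/-- All singular points over `κ` of the hypersurface `G = 0` are nondegenerate. -/
def NdField {κ : Type} [Field κ] {n : ℕ} (G : MvPolynomial (Fin (n + 2)) κ) : Prop :=
  ∀ (s : Fin (n + 2)) (P : {j : Fin (n + 2) // j ≠ s} → κ), eval P (deh s G) = 0 →
    (∀ b, eval P (pderiv b (deh s G)) = 0) → ((Hess (deh s G)).map (eval P)).det ≠ 0

/-- OD-41. Certificate for a family without degenerate members.
PROOF. Choose `D₀ ≥ 1` with all `D₀ c α` integral, `c₁ α` over `𝓞 K` with image `D₀ c α`. Let `i ∈ {0, 1}`,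
`v(t) = (1, t)` or `(t, 1)`, and let `s` be a chart. Consider in `K[t, X j (j ≠ s)]` the ideal generated by
`f = deh s (Fam c₁ v(t))`, its partial derivatives with respect to the `X j`, and the determinant of
its Hessian. By `hnd` it has no zero over the algebraic closure, so it is the unit ideal (otherwise
it is contained in a maximal ideal, whose residue field is finite over `K`, `MvPolynomial` over a
field is a Jacobson ring, and embeds into the algebraic closure). Clear denominators: a nonzero
element of `𝓞 K`, hence (norm) a nonzero integer `M_(i,s)`, is in the corresponding ideal of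
`𝓞 K[t, X j]`. Let `M` be the product of all `M_(i,s)`, `N = |D₀ M|`, `c₀ = ± M c₁`. For a field `κ` with
`N ≠ 0` in `κ` and `v ≠ 0`: if `v 0 ≠ 0`, `Fam c₀ v = M (v 0) ^ e Fam c₁ (1, v 1 / v 0)`
(homogeneity of the `c α`), so a point `P` with vanishing `f`, derivatives and Hessian determinant
(scaled by nonzero factors) would give `M_(0,s) = 0` in `κ`; similarly if `v 1 ≠ 0`. -/
def S_PF1 : Prop := ∀ {K : Type} [Field K] [NumberField K] (n d e : ℕ)
    (c : Ix n d → MvPolynomial (Fin 2) K) (hc : ∀ α, (c α).IsHomogeneous e)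
    (hnd : ∀ v : Fin 2 → AlgebraicClosure K, v ≠ 0 → NdField (Fam n d c v)),
    ∃ (N : ℕ) (c₀ : Ix n d → MvPolynomial (Fin 2) (𝓞 K)), N ≠ 0 ∧
      (∀ α, (c₀ α).IsHomogeneous e) ∧
      (∀ α, map (algebraMap (𝓞 K) K) (c₀ α) = C (N : K) * c α) ∧
      ∀ (κ : Type) [Field κ] [Algebra (𝓞 K) κ], (N : κ) ≠ 0 → ∀ v : Fin 2 → κ, v ≠ 0 →
        NdField (Fam n d c₀ v)

/-- OD-42. The members of the family over a Dedekind domain.
PROOF. Let `𝔭` be a nonzero prime. There are `λ ∈ L`, `λ ≠ 0` and `w : Fin 2 → O` with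
`λ v i = w i` and not both `w i` in `𝔭`: let `I` be the fractional ideal generated by `v 0, v 1` and
`λ ∈ I⁻¹`, `λ ∉ 𝔭 I⁻¹` (or work in the discrete valuation ring `O_𝔭` first and multiply by an element
of `O` outside `𝔭`). Let `H = Fam c₀ w` over `O` and `l = λ ^ e`, `T = T' = 1`: the image of `H` is
`λ ^ e Fam c₀ v`, since the `c₀ α` are homogeneous of degree `e` (`aeval` of the linear forms
`∑ j, C (1 i j) * X j = X i` is the identity). `Nondeg 𝔭 H`: let `Q` be as in the definition, `κ` the
fraction field of `O[X]/Q` (an algebra over `A₀`), `P j` the class of `X j`; `κ` contains the nonzero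
point `v' =` class of `w` (as `Q ∩ O = 𝔭`), and `N ≠ 0` in `κ` as it is a unit of `O`. The image of
`deh s H` in `κ[X]` is `deh s (Fam c₀ v')` (`map_deh`), so by `hnd` the Hessian determinant is not zero
at `P`, that is, not in `Q`. -/
def S_PF2 : Prop := ∀ {A₀ O L : Type} [CommRing A₀] [CommRing O] [IsDedekindDomain O] [Field L]
    [Algebra O L] [IsFractionRing O L] [Algebra A₀ O] [Algebra A₀ L] [IsScalarTower A₀ O L]
    (n d e N : ℕ) (hN : IsUnit (N : O)) (c₀ : Ix n d → MvPolynomial (Fin 2) A₀)
    (hc : ∀ α, (c₀ α).IsHomogeneous e)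
    (hnd : ∀ (κ : Type) [Field κ] [Algebra A₀ κ], (N : κ) ≠ 0 → ∀ v : Fin 2 → κ, v ≠ 0 →
      NdField (Fam n d c₀ v)) (v : Fin 2 → L) (hv : v ≠ 0),
    LocGood O (Fam n d c₀ v)

end Pool.Agent.Q40.OD
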