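import Pool.Agent.Q40.OD.Stm3

/-! Project OD, part 4: families of hypersurfaces. -/

set_option autoImplicit false
set_option linter.unusedSectionVars false
set_option linter.unusedVariables false

namespace Pool.Agent.Q40.OD

open Pool.Agent.TH214.RM MvPolynomial NumberField

/-- `LocGood` at one prime. -/
def LocGoodAt (O : Type) {K : Type} [CommRing O] [Field K] [Algebra O K] {n : ℕ} (𝔭 : Ideal O)
    (G : MvPolynomial (Fin (n + 2)) K) : Prop :=
  ∃ (H : MvPolynomial (Fin (n + 2)) O) (l : K) (T T' : Matrix (Fin (n + 2)) (Fin (n + 2)) K),
    l ≠ 0 ∧ T * T' = 1 ∧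
    map (algebraMap O K) H = C l * aeval (fun i => ∑ j, C (T i j) * X j) G ∧
      (Crit 𝔭 H ∨ Nondeg 𝔭 H)

/-- OD-51. Certificate: if all members of a family of forms with `b ≠ 0` over the algebraic closure
have only nondegenerate singular points, the same holds in all characteristics but finitely many.
It generalizes OD-41 (`S_PF1`), with the same, slightly simpler, proof.
PROOF. For every chart `s` consider in `K[v_1, ..., v_m, X j (j ≠ s)]` the ideal `I_s` generated by the
dehomogenized general member `f`, its partial derivatives with respect to the `X j`, and the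
determinant of its Hessian. `b` is in the radical of `I_s`: otherwise (a polynomial ring over a
field is a Jacobson ring) there is a maximal ideal containing `I_s` and not `b`; its residue field is
finite over `K` and embeds into the algebraic closure, which gives a point `(v, P)`, contradiction to
`hnd`. Clear denominators: `N_s * b ^ k ∈ I_s` over `R`, `N_s ≠ 0`. Let `N = ∏ N_s`. -/
def S_PG1 : Prop := ∀ {R K : Type} [CommRing R] [IsDomain R] [Field K] [Algebra R K]
    [IsFractionRing R K] {m : ℕ} (n d : ℕ) (c : Ix n d → MvPolynomial (Fin m) R)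
    (b : MvPolynomial (Fin m) R)
    (hnd : ∀ v : Fin m → AlgebraicClosure K, aeval v b ≠ 0 →
      NdField (form n d fun α => aeval v (c α))),
    ∃ N : R, N ≠ 0 ∧ ∀ (κ : Type) [Field κ] [Algebra R κ], algebraMap R κ N ≠ 0 →
      ∀ v : Fin m → κ, aeval v b ≠ 0 → NdField (form n d fun α => aeval v (c α))

end Pool.Agent.Q40.OD
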